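import Pool.Agent.H95.CP.Blk

/-!
Subgroup grids of `ZMod L × ZMod L`, test functions on a grid, strip kernels.
-/

set_option linter.unusedSectionVars false

namespace H95.CP

open Finset ComplexConjugate

variable {L : ℕ} [NeZero L]

/-- points of the subgroup of order `A` (if `A` divides `L`) -/
def gp {L : ℕ} (A : ℕ) (i : Fin A) : ZMod L := ((L / A * i.val : ℕ) : ZMod L)

/-- points of the grid -/
def gp2 {L : ℕ} (A B : ℕ) (i : Fin A × Fin B) : GG L := (gp A i.1, gp B i.2)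

lemma ch_nat_mul (k t : ZMod L) (n : ℕ) : ch k ((n : ZMod L) * t) = ch k t ^ n := by
  induction n with
  | zero => rw [Nat.cast_zero, zero_mul, ch_zero_right, pow_zero]
  | succ n ih => rw [Nat.cast_succ, add_mul, one_mul, ch_add_right, ih, pow_succ]

lemma ch_eq_one_iff (k t : ZMod L) : ch k t = 1 ↔ k * t = 0 := by
  unfold ch
  constructor
  · intro h
    apply ZMod.injective_stdAddChar
    rw [h, AddChar.map_zero_eq_one]
  · intro h
    rw [h, AddChar.map_zero_eq_one]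

lemma mul_step_eq_zero {A : ℕ} (hA : A ∣ L) (k : ZMod L) :
    k * ((L / A : ℕ) : ZMod L) = 0 ↔ A ∣ fa k := by
  obtain ⟨c, hc⟩ := hA
  have hL := NeZero.pos L
  have hA0 : 0 < A := Nat.pos_of_ne_zero (by rintro rfl; omega)
  have hc0 : 0 < c := Nat.pos_of_ne_zero (by rintro rfl; omega)
  have h1 : L / A = c := by
    rw [hc]
    exact Nat.mul_div_cancel_left c hA0
  rw [h1]
  have h2 : k * ((c : ℕ) : ZMod L) = ((k.valMinAbs * c : ℤ) : ZMod L) := by
    simp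
  rw [h2, ZMod.intCast_zmod_eq_zero_iff_dvd]
  have h3 : (L : ℤ) = A * c := by exact_mod_cast hc
  rw [h3, Int.mul_dvd_mul_iff_right (by exact_mod_cast hc0.ne')]
  unfold fa
  exact Int.natCast_dvd

lemma sum_gp {A : ℕ} (hA : A ∣ L) (k : ZMod L) :
    ∑ i : Fin A, ch k (gp A i) = if A ∣ fa k then (A : ℂ) else 0 := by
  have h1 : ∀ i : Fin A, ch k (gp A i) = ch k ((L / A : ℕ) : ZMod L) ^ i.val := by
    intro i
    rw [← ch_nat_mul]
    unfold gp
    push_cast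
    rw [mul_comm]
  simp only [h1]
  rw [Fin.sum_univ_eq_sum_range (fun i => ch k ((L / A : ℕ) : ZMod L) ^ i) A]
  split_ifs with h
  · rw [(ch_eq_one_iff _ _).2 ((mul_step_eq_zero hA k).2 h)]
    simp
  · have hz : ch k ((L / A : ℕ) : ZMod L) ≠ 1 := by
      intro h2
      exact h ((mul_step_eq_zero hA k).1 ((ch_eq_one_iff _ _).1 h2))
    have hz2 : ch k ((L / A : ℕ) : ZMod L) ^ A = 1 := by
      rw [← ch_nat_mul, ← Nat.cast_mul, Nat.mul_div_cancel' hA, ZMod.natCast_self, ch_zero_right]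
    rw [geom_sum_eq hz, hz2, sub_self, zero_div]

lemma sum_gp2 {A B : ℕ} (hA : A ∣ L) (hB : B ∣ L) (k : GG L) :
    ∑ i : Fin A × Fin B, ch2 k (gp2 A B i)
      = if A ∣ fa k.1 ∧ B ∣ fa k.2 then ((A : ℂ) * B) else 0 := by
  unfold ch2 gp2
  rw [Fintype.sum_prod_type]
  simp only
  rw [← Finset.sum_mul_sum, sum_gp hA, sum_gp hB]
  by_cases h1 : A ∣ fa k.1
  · by_cases h2 : B ∣ fa k.2
    · rw [if_pos h1, if_pos h2, if_pos ⟨h1, h2⟩]
    · rw [if_neg h2, mul_zero, if_neg (fun h => h2 h.2)]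
  · rw [if_neg h1, zero_mul, if_neg (fun h => h1 h.1)]

/-- average over the grid -/
noncomputable def avg (A B : ℕ) (f : Fin A × Fin B → ℂ) : ℂ :=
  (1 / ((A : ℂ) * B)) * ∑ i, f i

/-- average over the grid, real functions -/
noncomputable def avgR (A B : ℕ) (f : Fin A × Fin B → ℝ) : ℝ :=
  (1 / ((A : ℝ) * B)) * ∑ i, f i

lemma avg_ofReal (A B : ℕ) (f : Fin A × Fin B → ℝ) :
    avg A B (fun i => (f i : ℂ)) = (avgR A B f : ℂ) := by
  unfold avg avgR
  push_cast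
  rfl

lemma avgR_mono {A B : ℕ} {f g : Fin A × Fin B → ℝ} (h : ∀ i, f i ≤ g i) :
    avgR A B f ≤ avgR A B g := by
  unfold avgR
  exact mul_le_mul_of_nonneg_left (Finset.sum_le_sum (fun i _ => h i)) (by positivity)

/-- averages over a translated grid -/
lemma grid_mean {A B : ℕ} (hA : A ∣ L) (hB : B ∣ L) (f : GG L → ℂ)
    (hf : ∀ k, co2 f k ≠ 0 → fa k.1 < A ∧ fa k.2 < B) (x : GG L) :
    avg A B (fun i => f (x + gp2 A B i)) = E f := by
  have hL := NeZero.pos L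
  have hA0 : (A : ℂ) ≠ 0 := by
    intro h
    have : A = 0 := by exact_mod_cast h
    rw [this, zero_dvd_iff] at hA
    omega
  have hB0 : (B : ℂ) ≠ 0 := by
    intro h
    have : B = 0 := by exact_mod_cast h
    rw [this, zero_dvd_iff] at hB
    omega
  unfold avg
  have h1 : ∀ i : Fin A × Fin B, f (x + gp2 A B i)
      = ∑ k : GG L, co2 f k * ch2 k x * ch2 k (gp2 A B i) := by
    intro i
    rw [inversion2 f (x + gp2 A B i)]
    refine Finset.sum_congr rfl (fun k _ => ?_)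
    rw [ch2_add_right]
    ring
  simp only [h1]
  rw [Finset.sum_comm]
  have h2 : ∀ k : GG L, ∑ i : Fin A × Fin B, co2 f k * ch2 k x * ch2 k (gp2 A B i)
      = if k = 0 then co2 f 0 * ((A : ℂ) * B) else 0 := by
    intro k
    rw [← Finset.mul_sum, sum_gp2 hA hB]
    by_cases hk : k = 0
    · subst hk
      rw [if_pos rfl, ch2_zero_left, if_pos]
      · ring
      · rw [Prod.fst_zero, Prod.snd_zero, fa_zero]
        exact ⟨dvd_zero _, dvd_zero _⟩
    · rw [if_neg hk]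
      by_cases hc : co2 f k = 0
      · rw [hc]
        ring
      · rw [if_neg, mul_zero]
        rintro ⟨h3, h4⟩
        obtain ⟨h5, h6⟩ := hf k hc
        have e1 := Nat.eq_zero_of_dvd_of_lt h3 h5
        have e2 := Nat.eq_zero_of_dvd_of_lt h4 h6
        exact hk (Prod.ext (fa_eq_zero.1 e1) (fa_eq_zero.1 e2))
  simp only [h2]
  rw [Finset.sum_ite_eq' Finset.univ (0 : GG L)]
  simp only [Finset.mem_univ, if_true]
  rw [co2_zero]
  field_simp

lemma fa_neg2 (k : GG L) : fa (-k).1 = fa k.1 ∧ fa (-k).2 = fa k.2 := by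
  rw [Prod.fst_neg, Prod.snd_neg, fa_neg, fa_neg]
  exact ⟨rfl, rfl⟩

lemma co2_reflect (f : GG L → ℂ) (k : GG L) : co2 (fun x => f (-x)) k = co2 f (-k) := by
  unfold co2
  rw [← E_refl (fun x => f (-x) * conj (ch2 k x)) 0]
  congr 1
  ext x
  rw [zero_sub, neg_neg, ch2_neg_left, ch2_neg_right]

lemma grid_mean_sub {A B : ℕ} (hA : A ∣ L) (hB : B ∣ L) (f : GG L → ℂ)
    (hf : ∀ k, co2 f k ≠ 0 → fa k.1 < A ∧ fa k.2 < B) (x : GG L) :
    avg A B (fun i => f (x - gp2 A B i)) = E f := by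
  have h := grid_mean hA hB (fun y => f (-y)) (by
    intro k hk
    rw [co2_reflect] at hk
    have := hf _ hk
    rwa [(fa_neg2 k).1, (fa_neg2 k).2] at this) (-x)
  have e : E (fun y => f (-y)) = E f := by
    have := E_refl f 0
    simpa using this
  rw [← e, ← h]
  congr 1
  ext i
  congr 1
  abel

/-- pairing computed on the grid -/
lemma grid_pair {A B : ℕ} (hA : A ∣ L) (hB : B ∣ L) (f g : GG L → ℂ)
    (hfg : ∀ k l, co2 f k ≠ 0 → co2 g l ≠ 0 → fa k.1 + fa l.1 < A ∧ fa k.2 + fa l.2 < B) :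
    avg A B (fun i => f (gp2 A B i) * conj (g (gp2 A B i))) = E (fun x => f x * conj (g x)) := by
  have h := grid_mean hA hB (fun x => f x * conj (g x)) (by
    intro k hk
    rw [co2_mul] at hk
    obtain ⟨l, -, hl⟩ := Finset.exists_ne_zero_of_sum_ne_zero hk
    rw [co2_neg_conj] at hl
    have h1 : co2 f l ≠ 0 := left_ne_zero_of_mul hl
    have h2 : co2 g (-(k - l)) ≠ 0 := fun h3 => (right_ne_zero_of_mul hl) (by rw [h3, map_zero])
    obtain ⟨h3, h4⟩ := hfg _ _ h1 h2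
    rw [(fa_neg2 _).1] at h3
    rw [(fa_neg2 _).2] at h4
    have e1 : k.1 = l.1 + (k - l).1 := by rw [Prod.fst_sub]; ring
    have e2 : k.2 = l.2 + (k - l).2 := by rw [Prod.snd_sub]; ring
    have f1 := fa_add_le l.1 (k - l).1
    have f2 := fa_add_le l.2 (k - l).2
    rw [← e1] at f1
    rw [← e2] at f2
    exact ⟨by omega, by omega⟩) 0
  simp only [zero_add] at h
  exact h

/-- coefficients computed on the grid -/
lemma grid_co {A B : ℕ} (hA : A ∣ L) (hB : B ∣ L) (f : GG L → ℂ) (l : GG L)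
    (hf : ∀ k, co2 f k ≠ 0 → fa k.1 + fa l.1 < A ∧ fa k.2 + fa l.2 < B) :
    avg A B (fun i => f (gp2 A B i) * conj (ch2 l (gp2 A B i))) = co2 f l := by
  have := grid_pair hA hB f (fun x => ch2 l x) (by
    intro k l' hk hl'
    rw [co2_ch2] at hl'
    have : l = l' := by
      by_contra h
      rw [if_neg h] at hl'
      exact hl' rfl
    subst this
    exact hf k hk)
  rw [this]
  rfl

/-- Parseval on the grid -/
lemma grid_parseval {A B : ℕ} (hA : A ∣ L) (hB : B ∣ L) (f : GG L → ℂ)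
    (hf : ∀ k, co2 f k ≠ 0 → 2 * fa k.1 < A ∧ 2 * fa k.2 < B) :
    avgR A B (fun i => ‖f (gp2 A B i)‖ ^ 2) = ∑ k : GG L, ‖co2 f k‖ ^ 2 := by
  rw [← parseval]
  apply Complex.ofReal_injective
  rw [← E_ofReal, ← avg_ofReal]
  push_cast
  simp only [← Complex.mul_conj']
  exact grid_pair hA hB f f (by
    intro k l hk hl
    have h1 := hf k hk
    have h2 := hf l hl
    omega)

lemma pow8_dvd {b M : ℕ} (h : b ≤ M) : 8 ^ b ∣ 8 ^ M := Nat.pow_dvd_pow 8 h

/-- function built from values on the grid of the block `(b, c)` -/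
noncomputable def hh (k b c : ℕ) (η : Fin (8 ^ (b + 1)) × Fin (8 ^ (c + 1)) → ℝ)
    (x : GG L) : ℝ :=
  (1 / (2 * CV k)) * avgR (8 ^ (b + 1)) (8 ^ (c + 1)) (fun i => η i * vs k b c (x - gp2 _ _ i))

section hh

variable {k b c : ℕ}

lemma avg_vsq (hb : Large k b) (hc : Large k c) (hLb : 8 ^ (b + 1) ∣ L) (hLc : 8 ^ (c + 1) ∣ L)
    (x : GG L) :
    avgR (8 ^ (b + 1)) (8 ^ (c + 1)) (fun i => vsq k b c (x - gp2 _ _ i)) ≤ CV k := by
  have hL := NeZero.pos L
  have l1 : 6 * 8 ^ b ≤ L := by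
    have := Nat.le_of_dvd hL hLb
    rw [pow_succ] at this
    omega
  have l2 : 6 * 8 ^ c ≤ L := by
    have := Nat.le_of_dvd hL hLc
    rw [pow_succ] at this
    omega
  refine le_trans (le_of_eq ?_) (mean_vsq (L := L) hb hc l1 l2)
  apply Complex.ofReal_injective
  rw [← avg_ofReal, ← E_ofReal]
  refine grid_mean_sub hLb hLc (fun x => (vsq k b c x : ℂ)) ?_ x
  intro j hj
  rw [co2_vsq hb hc l1 l2] at hj
  have h1 : kq k b (fa j.1) ≠ 0 := by
    intro h
    rw [h] at hj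
    simp at hj
  have h2 : kq k c (fa j.2) ≠ 0 := by
    intro h
    rw [h] at hj
    simp at hj
  have h3 : fa j.1 < 3 * 8 ^ b := by
    by_contra h
    exact h1 (kq_zero hb (not_lt.1 h))
  have h4 : fa j.2 < 3 * 8 ^ c := by
    by_contra h
    exact h2 (kq_zero hc (not_lt.1 h))
  rw [pow_succ, pow_succ]
  omega

lemma abs_hh_le (hb : Large k b) (hc : Large k c) (hLb : 8 ^ (b + 1) ∣ L)
    (hLc : 8 ^ (c + 1) ∣ L) (η : Fin (8 ^ (b + 1)) × Fin (8 ^ (c + 1)) → ℝ)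
    (hη : ∀ i, |η i| ≤ 1) (x : GG L) : |hh k b c η x| ≤ 1 / 2 := by
  have hcv := CV_pos k
  have h1 := avg_vsq hb hc hLb hLc x
  have h2 : |avgR (8 ^ (b + 1)) (8 ^ (c + 1)) (fun i => η i * vs k b c (x - gp2 _ _ i))|
      ≤ avgR (8 ^ (b + 1)) (8 ^ (c + 1)) (fun i => vsq k b c (x - gp2 _ _ i)) := by
    unfold avgR
    rw [abs_mul, abs_of_nonneg (by positivity : (0 : ℝ) ≤
      1 / (((8 ^ (b + 1) : ℕ) : ℝ) * ((8 ^ (c + 1) : ℕ) : ℝ)))]
    refine mul_le_mul_of_nonneg_left ?_ (by positivity)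
    refine (Finset.abs_sum_le_sum_abs _ _).trans (Finset.sum_le_sum (fun i _ => ?_))
    rw [abs_mul]
    calc |η i| * |vs k b c (x - gp2 _ _ i)| ≤ 1 * vsq k b c (x - gp2 _ _ i) :=
          mul_le_mul (hη i) (abs_vs_le hb hc _) (abs_nonneg _) zero_le_one
      _ = _ := one_mul _
  unfold hh
  rw [abs_mul, abs_of_nonneg (by positivity : (0 : ℝ) ≤ 1 / (2 * CV k))]
  calc 1 / (2 * CV k) * _ ≤ 1 / (2 * CV k) * CV k :=
        mul_le_mul_of_nonneg_left (h2.trans h1) (by positivity)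
    _ = 1 / 2 := by field_simp

lemma co2_hh (hb : Large k b) (hc : Large k c) (hLb : 8 ^ (b + 1) ∣ L)
    (hLc : 8 ^ (c + 1) ∣ L) (η : Fin (8 ^ (b + 1)) × Fin (8 ^ (c + 1)) → ℝ) (j : GG L) :
    co2 (fun x => (hh k b c η x : ℂ)) j
      = (1 / (2 * (CV k : ℂ))) * ((ka k b (fa j.1) : ℂ) * (ka k c (fa j.2) : ℂ))
        * avg (8 ^ (b + 1)) (8 ^ (c + 1)) (fun i => (η i : ℂ) * conj (ch2 j (gp2 _ _ i))) := by
  have hL := NeZero.pos L
  have l1 : 6 * 8 ^ b ≤ L := by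
    have := Nat.le_of_dvd hL hLb
    rw [pow_succ] at this
    omega
  have l2 : 6 * 8 ^ c ≤ L := by
    have := Nat.le_of_dvd hL hLc
    rw [pow_succ] at this
    omega
  have e1 : (fun x : GG L => (hh k b c η x : ℂ)) = fun x => (1 / (2 * (CV k : ℂ)))
      * ((1 / (((8 ^ (b + 1) : ℕ) : ℂ) * ((8 ^ (c + 1) : ℕ) : ℂ)))
        * ∑ i : Fin (8 ^ (b + 1)) × Fin (8 ^ (c + 1)),
          (η i : ℂ) * (vs k b c (x - gp2 _ _ i) : ℂ)) := by
    funext x
    unfold hh avgR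
    push_cast
    rfl
  rw [e1, co2_smul, co2_smul, co2_sum]
  have e2 : ∀ i : Fin (8 ^ (b + 1)) × Fin (8 ^ (c + 1)),
      co2 (fun x : GG L => (η i : ℂ) * (vs k b c (x - gp2 _ _ i) : ℂ)) j
        = ((ka k b (fa j.1) : ℂ) * (ka k c (fa j.2) : ℂ))
          * ((η i : ℂ) * conj (ch2 j (gp2 _ _ i))) := by
    intro i
    rw [co2_smul, co2_shift (fun x => (vs k b c x : ℂ)), co2_vs hb hc l1 l2]
    ring
  simp only [e2]
  rw [← Finset.mul_sum]
  unfold avg
  ring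

lemma co2_hh_zero (hb : Large k b) (hc : Large k c) (hLb : 8 ^ (b + 1) ∣ L)
    (hLc : 8 ^ (c + 1) ∣ L) (η : Fin (8 ^ (b + 1)) × Fin (8 ^ (c + 1)) → ℝ) (j : GG L)
    (hj : ¬ (Half k b (fa j.1) ∧ Half k c (fa j.2))) :
    co2 (fun x => (hh k b c η x : ℂ)) j = 0 := by
  rw [co2_hh hb hc hLb hLc]
  rw [not_and_or] at hj
  rcases hj with h | h
  · rw [ka_zero hb h]
    simp
  · rw [ka_zero hc h]
    simp

/-- pairing with a test function -/
lemma E_mul_hh (f : GG L → ℂ) (η : Fin (8 ^ (b + 1)) × Fin (8 ^ (c + 1)) → ℝ) :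
    E (fun x => f x * (hh k b c η x : ℂ))
      = (1 / (2 * (CV k : ℂ))) * avg (8 ^ (b + 1)) (8 ^ (c + 1))
        (fun i => (η i : ℂ) * conv (fun x => (vs k b c x : ℂ)) f (gp2 _ _ i)) := by
  have e1 : ∀ x : GG L, f x * (hh k b c η x : ℂ) = (1 / (2 * (CV k : ℂ)))
      * ((1 / (((8 ^ (b + 1) : ℕ) : ℂ) * ((8 ^ (c + 1) : ℕ) : ℂ)))
        * ∑ i : Fin (8 ^ (b + 1)) × Fin (8 ^ (c + 1)),
          (η i : ℂ) * (f x * (vs k b c (x - gp2 _ _ i) : ℂ))) := by
    intro x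
    unfold hh avgR
    push_cast
    rw [Finset.mul_sum, Finset.mul_sum, Finset.mul_sum, Finset.mul_sum, Finset.mul_sum]
    refine Finset.sum_congr rfl (fun i _ => ?_)
    ring
  simp only [e1]
  rw [E_mul_left, E_mul_left, E_sum]
  unfold avg
  congr 2
  refine Finset.sum_congr rfl (fun i _ => ?_)
  rw [E_mul_left]
  congr 1
  unfold conv
  rw [← E_refl (fun s => (vs k b c s : ℂ) * f (gp2 _ _ i - s)) (gp2 _ _ i)]
  congr 1
  ext x
  rw [sub_sub_cancel, ← neg_sub x, vs_neg]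
  ring

end hh

/-- strip kernel -/
noncomputable def sk (W1 W2 : ℕ) (om t : ZMod L) : ℂ := ch om t * (vp W1 W2 t : ℂ)

lemma co_sk {W1 W2 : ℕ} (h : W1 < W2) (hL : 2 * W2 ≤ L) (om k : ZMod L) :
    co (fun t => sk W1 W2 om t) k = mu W1 W2 (fa (k - om)) := by
  rw [← co_vp (L := L) h hL (k - om)]
  unfold co sk
  congr 1
  refine Finset.sum_congr rfl (fun t _ => ?_)
  rw [ch_sub_left, map_mul, Complex.conj_conj]
  ring

lemma norm_sk_le {W1 W2 : ℕ} (h : W1 < W2) (om t : ZMod L) : ‖sk W1 W2 om t‖ ≤ vq W1 W2 t := by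
  unfold sk
  rw [norm_mul, ch_norm, one_mul, Complex.norm_real]
  exact abs_vp_le h t

lemma mean_sk_le {W1 W2 : ℕ} (h : W1 < W2) (hL : 2 * W2 ≤ L) (om : ZMod L) :
    (1 / (L : ℝ)) * ∑ t : ZMod L, ‖sk W1 W2 om t‖ ≤ ((W2 : ℝ) + W1) / ((W2 : ℝ) - W1) := by
  rw [← mean_vq (L := L) h hL]
  exact mul_le_mul_of_nonneg_left (Finset.sum_le_sum (fun t _ => norm_sk_le h om t))
    (by positivity)

/-- a strip of a function is bounded by a constant times its maximum -/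
lemma norm_strip_le {W1 W2 : ℕ} (h : W1 < W2) (hL : 2 * W2 ≤ L) (om : ZMod L) (f : GG L → ℂ)
    (B : ℝ) (hB : ∀ x, ‖f x‖ ≤ B) (x : GG L) :
    ‖yconv (fun t => sk W1 W2 om t) f x‖ ≤ ((W2 : ℝ) + W1) / ((W2 : ℝ) - W1) * B :=
  (norm_yconv_le _ _ B hB x).trans
    (mul_le_mul_of_nonneg_right (mean_sk_le h hL om) ((norm_nonneg _).trans (hB x)))

end H95.CP
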