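import Pool.Agent.H95.CP.FinB
import Pool.Agent.H74.CP.Cand
import Pool.Agent.H72.CP.PatFin
import Pool.Agent.H72.CP.CardFin

set_option autoImplicit false

/-! An inactive column of the final test. -/

namespace H95.CP

open Finset ComplexConjugate Pool.Agent.H98.CP

/-- the error over the sign points -/
lemma sign_error {M A B : ℕ} (hA : 0 < A) (hB : 0 < B) (hAB : A * B = 64 * 8 ^ M)
    (idx : Fin (8 ^ M) → Fin A × Fin B) (hidx : Function.Injective idx)
    (f : Fin A × Fin B → ℝ) (e : Fin A × Fin B → ℝ) (u : Fin A × Fin B → ℂ) (t : ℝ)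
    (he : avgR A B (fun y => |e y|) ≤ 1 / 2 ^ 20) (ht0 : 0 ≤ t) (ht : t ≤ 2 / 2 ^ 20)
    (hu : avgR A B (fun y => ‖u y‖ ^ 2) ≤ t ^ 2) (hf : ∀ y, |f y| ≤ |e y| + ‖u y‖) :
    ∑ i, |f (idx i)| ≤ 192 * 8 ^ M / 2 ^ 20 := by
  classical
  have h1 := avgR_le_of_sq hA hB u t ht0 hu
  have hn : ((A : ℝ) * B) = 64 * 8 ^ M := by exact_mod_cast hAB
  have hn0 : (0 : ℝ) < (A : ℝ) * B := by rw [hn]; positivity
  unfold avgR at h1 he
  rw [one_div, inv_mul_le_iff₀ hn0] at h1 he
  calc ∑ i, |f (idx i)| = ∑ y ∈ univ.image idx, |f y| := by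
        rw [Finset.sum_image (fun a _ b _ h => hidx h)]
    _ ≤ ∑ y, |f y| := Finset.sum_le_sum_of_subset_of_nonneg (Finset.subset_univ _)
        (fun y _ _ => abs_nonneg _)
    _ ≤ ∑ y, (|e y| + ‖u y‖) := Finset.sum_le_sum (fun y _ => hf y)
    _ = ∑ y, |e y| + ∑ y, ‖u y‖ := Finset.sum_add_distrib
    _ ≤ (A : ℝ) * B * (1 / 2 ^ 20) + (A : ℝ) * B * t := add_le_add he h1
    _ ≤ (A : ℝ) * B * (1 / 2 ^ 20) + (A : ℝ) * B * (2 / 2 ^ 20) := by
        have := mul_le_mul_of_nonneg_left ht hn0.le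
        linarith
    _ = 192 * 8 ^ M / 2 ^ 20 := by
        rw [hn]
        ring

theorem stFinIn (hA : StAtom) (hW : StWl) : StFinIn := by
  refine ⟨1, fun j0 hj0 => ?_⟩
  obtain ⟨J1, hJ1⟩ := num_sum j0
  obtain ⟨J2, hJ2⟩ := Pool.Agent.H72.CP.card_fin
  refine ⟨10 + J1 + J2, fun lf hlf => ?_⟩
  have hJF1 : J1 ≤ JF lf := by unfold JF; omega
  have hJF2 : J2 ≤ JF lf := by unfold JF; omega
  obtain ⟨M1, hM1⟩ := hJ2 (JF lf) hJF2
  refine ⟨8 + M1, fun M hM tb act h b phi hR hE => ?_⟩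
  classical
  have hM8 : 8 ≤ M := by omega
  have hsz : 4 ≤ Nat.size M := by
    have : 2 ^ 3 ≤ M := by omega
    have := Nat.lt_size.2 this
    omega
  have h8sz : 8 ^ 4 ≤ 8 ^ Nat.size M := Nat.pow_le_pow_right (by norm_num) hsz
  have hLg : Lg M 0 := by
    unfold Lg
    norm_num
    omega
  have hJok : Jok 0 (JF lf) lf := by
    refine ⟨?_, by omega, le_rfl⟩
    have h1 : 8 ^ 5 ≤ 8 ^ JF lf := Nat.pow_le_pow_right (by norm_num) (by unfold JF; omega)
    norm_num at h1 ⊢
    omega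
  obtain ⟨hr1, hr2, hr3, hr4⟩ := hE.rng
  have hb1 : 1 ≤ b := by omega
  have hbL : Large 0 b := by
    unfold Large
    have : 8 ^ Nat.size M ≤ 8 ^ b := Nat.pow_le_pow_right (by norm_num) hr1
    norm_num
    omega
  have hcL : Large 0 (M - b) := by
    unfold Large
    have : 8 ^ Nat.size M ≤ 8 ^ (M - b) := Nat.pow_le_pow_right (by norm_num) (by omega)
    norm_num
    omega
  -- the samples
  have hrho : ∀ s, 0 < Real.sqrt (TH (j0 + s) / 8 ^ M) := by
    intro s
    apply Real.sqrt_pos.2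
    unfold TH
    positivity
  have hcv := CV_pos 0
  obtain ⟨AA, hAA, hAA'⟩ := Pool.Agent.H74.CP.rep_cand hA hW hR hLg hJok hE (1 / 2 ^ 20)
    (8 ^ (M - 4)) (by positivity) (by positivity) (fun s => Real.sqrt (TH (j0 + s) / 8 ^ M))
    hrho (Pool.Agent.H72.CP.nd M) (Pool.Agent.H72.CP.ns M (JF lf))
    (fun d => Nat.succ_pos _) (fun s => Nat.succ_pos _)
    (fun d => (1 / 2 ^ 19 : ℝ) * (5 / 6) ^ d)
    (fun s => (8 : ℝ) ^ (8 * j0) * CV 0 * (5 / 6) ^ (JF lf) * (1 / 32) ^ s)
    (fun d => by positivity) (fun s => by positivity)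
    (by
      intro d hd
      rw [mem_Icc] at hd
      refine num_h1 M d _ (by omega) ?_
      unfold Pool.Agent.H72.CP.nd
      push_cast
      exact (Nat.lt_floor_add_one _).le)
    (by
      intro s hs
      refine num_h2 M (JF lf) j0 s _ (by omega) ?_
      unfold Pool.Agent.H72.CP.ns
      push_cast
      exact (Nat.lt_floor_add_one _).le)
  simp only [Nat.add_zero] at hAA hAA'
  have hcard : (AA.card : ℝ) ≤ 2 ^ ((8 : ℝ) ^ M / 8) :=
    hAA.trans (hM1 M (by omega) (M - b) (Nat.sub_le _ _))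
  -- the patterns
  obtain ⟨PP, hPP, hPP'⟩ := Pool.Agent.H72.CP.pat_fin hM8 (Y := Fin (8 ^ M))
    (Fintype.card_fin _) AA hcard
    (fun q i => ((∑ lam : G M, phi lam * wl 0 b (M - b) (Psi h b) lam
      (pt (b + 1) (M - b + 1) (tb.idx b i))) + q (tb.idx b i)).re)
    (DD M 1 b (M - b)) (by
      refine (card_DD 1 b (M - b)).trans ?_
      rw [Nat.add_sub_cancel' (by omega)]
      omega)
    (fun k i => ch2 k (pt (b + 1) (M - b + 1) (tb.idx b i)))
  refine ⟨PP, hPP, ?_⟩
  intro w T s hK hcol hT htst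
  have hsup : ∀ lam, co2 (cx w.g) lam - phi lam ≠ 0 → lam ∈ w.Lam := by
    intro lam hl
    by_contra hcon
    apply hl
    rw [w.spec lam hcon]
    by_contra h3
    exact hcon (hK.1 lam (fun h4 => h3 (by rw [h4, sub_zero])))
  obtain ⟨e, q, hq, he, hu⟩ := hAA' (fun x => T x - w.g x) (fun lam => co2 (cx w.g) lam - phi lam)
    (fun eta heta => (htst eta heta).le)
    (by
      have h5 : (univ.filter (fun lam => co2 (cx w.g) lam - phi lam ≠ 0 ∧
          ∃ a ∈ act, lam ∈ DD M (0 + 1) b (M - a))).card ≤ (colm w.Lam b).card := by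
        refine Finset.card_le_card (fun lam hl => ?_)
        rw [mem_filter] at hl
        obtain ⟨-, h6, a, -, h7⟩ := hl
        exact DD_sub_colm h7 (hsup lam h6)
      have h8 : (((univ.filter (fun lam => co2 (cx w.g) lam - phi lam ≠ 0 ∧
          ∃ a ∈ act, lam ∈ DD M (0 + 1) b (M - a))).card : ℕ) : ℝ) ≤ ((8 ^ (M - 4) : ℕ) : ℝ) := by
        exact_mod_cast h5.trans hcol
      push_cast at h8
      exact h8)
    (by
      intro a ha lam hl
      have hga := hE.gap a ha
      obtain ⟨ha1, ha2, ha3, ha4⟩ := hR.rng a ha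
      have h9 := hK.2 b (b - a) ⟨hr1, hr2, Nat.sub_le _ _, by omega⟩
        (hcol.trans (Nat.pow_le_pow_right (by norm_num) (Nat.sub_le _ _))) lam (by
          have e1 : M + (b - a) - b = M - a := by omega
          rw [e1]
          unfold DD at hl ⊢
          rw [mem_filter] at hl ⊢
          exact ⟨mem_univ _, hl.2.1.mono (by omega), hl.2.2.mono (by omega)⟩)
      have h10 : max j0 (j0 + Nat.size (b - a)) = j0 + Nat.size (b - a) :=
        max_eq_right (Nat.le_add_right _ _)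
      rw [h10] at h9
      exact Real.le_sqrt_of_sq_le h9)
  obtain ⟨z, hz⟩ := loc_spec hbL hcL (by omega) (Nat.sub_le _ _) w
  refine hPP' s q hq ((DD M 1 b (M - b)).filter (fun k => k ∈ w.Lam)) (Finset.filter_subset _ _)
    ?_ z ?_
  · refine (Finset.card_le_card (fun k hk => ?_)).trans hcol
    rw [mem_filter] at hk
    exact DD_sub_colm hk.1 hk.2
  · set U : Gr (b + 1) (M - b + 1) → ℂ := fun y =>
      loc 0 b (M - b) (cx (fun x => (T x - w.g x) * Psi h b x)) (pt _ _ y)
        + (∑ lam, (co2 (cx w.g) lam - phi lam) * wl 0 b (M - b) (Psi h b) lam (pt _ _ y))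
        - e y - q y with hU
    have hkey := sign_error (M := M) (A := 8 ^ (b + 1)) (B := 8 ^ (M - b + 1)) (by positivity)
      (by positivity) (by
        rw [← pow_add]
        have : b + 1 + (M - b + 1) = M + 2 := by omega
        rw [this, pow_add]
        ring) (tb.idx b) (tb.inj b hb1 hr2)
      (fun y => tb.t b s (pt _ _ y) - ((∑ lam : G M, phi lam * wl 0 b (M - b) (Psi h b) lam
        (pt (b + 1) (M - b + 1) y)) + q y).re
        - (∑ x ∈ (DD M 1 b (M - b)).filter (fun k => k ∈ w.Lam), z x * ch2 x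
          (pt (b + 1) (M - b + 1) y)).re) e U _ he
      (add_nonneg (Finset.sum_nonneg (fun d _ => by positivity))
        (Finset.sum_nonneg (fun d _ => by positivity)))
      (hJ1 (JF lf) hJF1 (M - b) (Nat.size M + 1)) hu (by
        intro y
        have h11 : (tb.t b s (pt (b + 1) (M - b + 1) y) : ℂ)
            - ((∑ lam : G M, phi lam * wl 0 b (M - b) (Psi h b) lam
              (pt (b + 1) (M - b + 1) y)) + q y)
            - (∑ x ∈ (DD M 1 b (M - b)).filter (fun k => k ∈ w.Lam), z x * ch2 x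
              (pt (b + 1) (M - b + 1) y)) = (e y : ℂ) + U y := by
          rw [← hT, loc_split 0 b (M - b) (Psi h b) T w.g phi, ← hz, hU]
          ring
        have h12 := congrArg Complex.re h11
        simp only [Complex.sub_re, Complex.add_re, Complex.ofReal_re] at h12
        simp only [Complex.add_re]
        rw [h12]
        refine (abs_add_le _ _).trans ?_
        gcongr
        exact Complex.abs_re_le_norm _)
    refine le_trans (le_of_eq ?_) hkey
    refine Finset.sum_congr rfl (fun i _ => ?_)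
    rw [tb.val b s i hb1 hr2]
    rfl

end H95.CP
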