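import Pool.Agent.H98.CP.St

set_option autoImplicit false

/-! Pieces of the inactive column of the final test. -/

namespace H95.CP

open Finset ComplexConjugate Pool.Agent.H98.CP

lemma conv_add_right {L : ℕ} [NeZero L] (K f g : GG L → ℂ) (x : GG L) :
    conv K (fun y => f y + g y) x = conv K f x + conv K g x := by
  unfold conv
  rw [← E_add]
  congr 1
  funext s
  ring

lemma conv_smul_right {L : ℕ} [NeZero L] (K f : GG L → ℂ) (a : ℂ) (x : GG L) :
    conv K (fun y => a * f y) x = a * conv K f x := by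
  unfold conv
  rw [← E_mul_left]
  congr 1
  funext s
  ring

lemma conv_sum_right {L : ℕ} [NeZero L] {ι : Type*} (s : Finset ι) (K : GG L → ℂ)
    (f : ι → GG L → ℂ) (x : GG L) :
    conv K (fun y => ∑ i ∈ s, f i y) x = ∑ i ∈ s, conv K (f i) x := by
  unfold conv
  rw [← E_sum]
  congr 1
  funext t
  rw [Finset.mul_sum]

/-- splitting of the localised product -/
lemma loc_split {M : ℕ} (j b c : ℕ) (Ψ T g : G M → ℝ) (phi : G M → ℂ) (x : G M) :
    loc j b c (cx (fun z => T z * Ψ z)) x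
      = (loc j b c (cx (fun z => (T z - g z) * Ψ z)) x
          + ∑ lam : G M, (co2 (cx g) lam - phi lam) * wl j b c Ψ lam x)
        + loc j b c (cx g) x + ∑ lam : G M, phi lam * wl j b c Ψ lam x := by
  have h1 : cx (fun z => T z * Ψ z) = fun z : G M => (cx (fun z => (T z - g z) * Ψ z) z
      + cx g z) + ∑ lam : G M, co2 (cx g) lam * (((Ψ z : ℂ) - 1) * ch2 lam z) := by
    funext z
    have h2 : ∑ lam : G M, co2 (cx g) lam * (((Ψ z : ℂ) - 1) * ch2 lam z)
        = ((Ψ z : ℂ) - 1) * cx g z := by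
      conv_rhs => rw [inversion2 (cx g) z]
      rw [Finset.mul_sum]
      exact Finset.sum_congr rfl (fun lam _ => by ring)
    rw [h2]
    unfold cx
    push_cast
    ring
  have h3 : loc j b c (cx (fun z => T z * Ψ z)) x
      = loc j b c (cx (fun z => (T z - g z) * Ψ z)) x + loc j b c (cx g) x
        + ∑ lam : G M, co2 (cx g) lam * wl j b c Ψ lam x := by
    rw [h1]
    unfold loc
    rw [conv_add_right, conv_add_right, conv_sum_right]
    congr 1
    refine Finset.sum_congr rfl (fun lam _ => ?_)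
    rw [conv_smul_right]
    rfl
  rw [h3]
  have h4 : ∑ lam : G M, co2 (cx g) lam * wl j b c Ψ lam x
      = ∑ lam : G M, (co2 (cx g) lam - phi lam) * wl j b c Ψ lam x
        + ∑ lam : G M, phi lam * wl j b c Ψ lam x := by
    rw [← Finset.sum_add_distrib]
    exact Finset.sum_congr rfl (fun lam _ => by ring)
  rw [h4]
  ring

lemma six_le {M b : ℕ} (h : b ≤ M) : 6 * 8 ^ b ≤ LL M := by
  have h1 : 8 ^ b ≤ 8 ^ M := Nat.pow_le_pow_right (by norm_num) h
  unfold LL
  rw [pow_add]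
  omega

open scoped Classical in
/-- the spectrum of the localised function -/
lemma loc_spec {M : ℕ} {b c : ℕ} (hb : Large 0 b) (hc : Large 0 c) (hbM : b ≤ M) (hcM : c ≤ M)
    (w : Cf M) :
    ∃ z : G M → ℂ, ∀ x, loc 0 b c (cx w.g) x
      = ∑ k ∈ (DD M 1 b c).filter (fun k => k ∈ w.Lam), z k * ch2 k x := by
  refine ⟨fun k => ((ka 0 b (fa k.1) : ℂ) * (ka 0 c (fa k.2) : ℂ)) * co2 (cx w.g) k, fun x => ?_⟩
  rw [inversion2 (loc 0 b c (cx w.g)) x]
  symm
  refine Finset.sum_subset_zero_on_sdiff (Finset.subset_univ _) ?_ ?_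
  · intro k hk
    rw [mem_sdiff, mem_filter] at hk
    have h1 : co2 (loc 0 b c (cx w.g)) k = 0 := by
      unfold loc
      rw [co2_conv]
      have e : co2 (cx (vs 0 b c)) k = (ka 0 b (fa k.1) : ℂ) * (ka 0 c (fa k.2) : ℂ) :=
        co2_vs hb hc (six_le hbM) (six_le hcM) k
      rw [e]
      by_cases hL : k ∈ w.Lam
      · have h2 : k ∉ DD M 1 b c := fun h => hk.2 ⟨h, hL⟩
        unfold DD at h2
        rw [mem_filter, not_and, not_and_or] at h2
        rcases h2 (mem_univ _) with h3 | h3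
        · rw [ka_zero hb (fun h => h3 h.band)]
          simp
        · rw [ka_zero hc (fun h => h3 h.band)]
          simp
      · rw [w.spec k hL, mul_zero]
    rw [h1, zero_mul]
  · intro k _
    unfold loc
    rw [co2_conv]
    have e : co2 (cx (vs 0 b c)) k = (ka 0 b (fa k.1) : ℂ) * (ka 0 c (fa k.2) : ℂ) :=
      co2_vs hb hc (six_le hbM) (six_le hcM) k
    rw [e]

lemma DD_sub_colm {M : ℕ} {j b c : ℕ} {Lam : Finset (G M)} {k : G M} (hk : k ∈ DD M j b c)
    (hL : k ∈ Lam) : k ∈ colm Lam b := by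
  classical
  unfold DD at hk
  unfold colm
  rw [mem_filter] at hk ⊢
  exact ⟨hL, hk.2.1.gt, hk.2.1.lt⟩

lemma card_DD {M : ℕ} (j b c : ℕ) : (DD M j b c).card ≤ 36 * 8 ^ (b + c) := by
  classical
  have h1 : DD M j b c ⊆ (univ.filter (fun k : ZMod (LL M) => fa k < 3 * 8 ^ b)) ×ˢ
      (univ.filter (fun k : ZMod (LL M) => fa k < 3 * 8 ^ c)) := by
    intro k hk
    unfold DD at hk
    rw [mem_filter] at hk
    rw [mem_product, mem_filter, mem_filter]
    exact ⟨⟨mem_univ _, hk.2.1.lt⟩, ⟨mem_univ _, hk.2.2.lt⟩⟩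
  refine (Finset.card_le_card h1).trans ?_
  rw [card_product, pow_add]
  have h2 := card_fa_lt (L := LL M) (3 * 8 ^ b)
  have h3 := card_fa_lt (L := LL M) (3 * 8 ^ c)
  calc _ ≤ (2 * (3 * 8 ^ b)) * (2 * (3 * 8 ^ c)) := Nat.mul_le_mul h2 h3
    _ = _ := by ring

/-- `L¹` by `L²` for averages -/
lemma avgR_le_of_sq {A B : ℕ} (hA : 0 < A) (hB : 0 < B) (f : Fin A × Fin B → ℂ) (t : ℝ)
    (ht : 0 ≤ t) (h : avgR A B (fun y => ‖f y‖ ^ 2) ≤ t ^ 2) : avgR A B (fun y => ‖f y‖) ≤ t := by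
  unfold avgR at h ⊢
  have hn : (0 : ℝ) < (A : ℝ) * B := by
    have h1 : (0 : ℝ) < A := by exact_mod_cast hA
    have h2 : (0 : ℝ) < B := by exact_mod_cast hB
    positivity
  have h1 : (∑ y, ‖f y‖) ^ 2 ≤ ((A : ℝ) * B) * ∑ y, ‖f y‖ ^ 2 := by
    have h2 := sq_sum_le_card_mul_sum_sq (s := (univ : Finset (Fin A × Fin B)))
      (f := fun y => ‖f y‖)
    rw [Finset.card_univ, Fintype.card_prod, Fintype.card_fin, Fintype.card_fin] at h2
    push_cast at h2
    exact h2
  rw [one_div, inv_mul_le_iff₀ hn] at h ⊢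
  refine abs_le_of_sq_le_sq' ?_ (by positivity) |>.2
  calc (∑ y, ‖f y‖) ^ 2 ≤ ((A : ℝ) * B) * ∑ y, ‖f y‖ ^ 2 := h1
    _ ≤ ((A : ℝ) * B) * ((A : ℝ) * B * t ^ 2) := mul_le_mul_of_nonneg_left h hn.le
    _ = ((A : ℝ) * B * t) ^ 2 := by ring

end H95.CP
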