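import Pool.Agent.H95.CP.G2

/-!
Level bands and block kernels.
-/

set_option linter.unusedSectionVars false

namespace H95.CP

open Finset ComplexConjugate

variable {L : ℕ} [NeZero L]

lemma fa_neg (k : ZMod L) : fa (-k) = fa k := by
  unfold fa
  exact ZMod.natAbs_valMinAbs_neg k

lemma fa_zero : fa (0 : ZMod L) = 0 := by
  unfold fa
  simp

lemma fa_add_le (k l : ZMod L) : fa (k + l) ≤ fa k + fa l := by
  unfold fa
  exact (ZMod.natAbs_valMinAbs_add_le k l).trans (Int.natAbs_add_le _ _)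

lemma fa_sub_le (k l : ZMod L) : fa (k - l) ≤ fa k + fa l := by
  rw [sub_eq_add_neg]
  exact (fa_add_le _ _).trans (by rw [fa_neg])

lemma fa_eq_zero {k : ZMod L} : fa k = 0 ↔ k = 0 := by
  unfold fa
  rw [Int.natAbs_eq_zero, ZMod.valMinAbs_eq_zero]

lemma fa_le (k : ZMod L) : 2 * fa k ≤ L := by
  have := ZMod.natAbs_valMinAbs_le k
  unfold fa
  omega

lemma dk_neg (W : ℕ) (t : ZMod L) : dk W (-t) = dk W t := by
  unfold dk
  have h : ∑ j ∈ range W, ch (j : ZMod L) (-t) = conj (∑ j ∈ range W, ch (j : ZMod L) t) := by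
    rw [map_sum]
    exact Finset.sum_congr rfl (fun j _ => ch_neg_right _ _)
  rw [h, Complex.norm_conj]

lemma vp_neg (W1 W2 : ℕ) (t : ZMod L) : vp W1 W2 (-t) = vp W1 W2 t := by
  unfold vp
  rw [dk_neg, dk_neg]

lemma vq_neg (W1 W2 : ℕ) (t : ZMod L) : vq W1 W2 (-t) = vq W1 W2 t := by
  unfold vq
  rw [dk_neg, dk_neg]

/-- number of frequencies of absolute value `< W` -/
lemma card_fa_lt (W : ℕ) : #(univ.filter (fun k : ZMod L => fa k < W)) ≤ 2 * W := by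
  have h : (univ.filter (fun k : ZMod L => fa k < W)).card
      ≤ (Finset.Ico (-(W : ℤ)) W).card := by
    refine Finset.card_le_card_of_injOn (fun k => k.valMinAbs) ?_ ?_
    · intro k hk
      rw [Finset.mem_coe, mem_filter] at hk
      rw [Finset.mem_coe, mem_Ico]
      have h1 := hk.2
      unfold fa at h1
      constructor
      · show -(W : ℤ) ≤ k.valMinAbs
        omega
      · show k.valMinAbs < (W : ℤ)
        omega
    · intro a _ b _ hab
      exact ZMod.injective_valMinAbs hab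
  rw [Int.card_Ico] at h
  omega

lemma sum_mu_le {W1 W2 : ℕ} (h : W1 < W2) : ∑ k : ZMod L, mu W1 W2 (fa k) ≤ 2 * W2 := by
  have h1 : ∀ k : ZMod L, mu W1 W2 (fa k) ≤ if fa k < W2 then 1 else 0 := by
    intro k
    split_ifs with h2
    · exact mu_le_one h _
    · rw [mu_zero h (by omega)]
  refine (Finset.sum_le_sum (fun k _ => h1 k)).trans ?_
  rw [Finset.sum_boole]
  have := card_fa_lt (L := L) W2
  exact_mod_cast this

/-- lower end of the band of level `k` -/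
noncomputable def lo (k : ℕ) : ℝ := 1 / 2 + 1 / (2 * ((k : ℝ) + 1))

/-- upper end of the band of level `k` -/
noncomputable def hi (k : ℕ) : ℝ := 3 - 1 / ((k : ℝ) + 1)

/-- middle of `lo k`, `lo (k+1)` -/
noncomputable def lom (k : ℕ) : ℝ := (lo k + lo (k + 1)) / 2

/-- middle of `hi k`, `hi (k+1)` -/
noncomputable def him (k : ℕ) : ℝ := (hi k + hi (k + 1)) / 2

lemma lo_zero : lo 0 = 1 := by unfold lo; norm_num

lemma hi_zero : hi 0 = 2 := by unfold hi; norm_num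

lemma lo_sub (k : ℕ) : lo k - lo (k + 1) = 1 / (2 * (((k : ℝ) + 1) * ((k : ℝ) + 2))) := by
  unfold lo
  push_cast
  have h1 : (k : ℝ) + 1 ≠ 0 := by positivity
  have h2 : (k : ℝ) + 2 ≠ 0 := by positivity
  have h3 : (k : ℝ) + 1 + 1 ≠ 0 := by positivity
  field_simp
  ring

lemma hi_sub (k : ℕ) : hi (k + 1) - hi k = 1 / (((k : ℝ) + 1) * ((k : ℝ) + 2)) := by
  unfold hi
  push_cast
  have h1 : (k : ℝ) + 1 ≠ 0 := by positivity
  have h2 : (k : ℝ) + 2 ≠ 0 := by positivity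
  have h3 : (k : ℝ) + 1 + 1 ≠ 0 := by positivity
  field_simp
  ring

lemma lo_gt (k : ℕ) : 1 / 2 < lo k := by
  unfold lo
  have : (0 : ℝ) < 1 / (2 * ((k : ℝ) + 1)) := by positivity
  linarith

lemma lo_le_one (k : ℕ) : lo k ≤ 1 := by
  unfold lo
  have h : 1 / (2 * ((k : ℝ) + 1)) ≤ 1 / 2 := by
    apply one_div_le_one_div_of_le (by norm_num)
    have : (0 : ℝ) ≤ k := Nat.cast_nonneg k
    linarith
  linarith

lemma hi_lt (k : ℕ) : hi k < 3 := by
  unfold hi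
  have : (0 : ℝ) < 1 / ((k : ℝ) + 1) := by positivity
  linarith

lemma two_le_hi (k : ℕ) : 2 ≤ hi k := by
  unfold hi
  have h : 1 / ((k : ℝ) + 1) ≤ 1 := by
    rw [div_le_one (by positivity)]
    have : (0 : ℝ) ≤ k := Nat.cast_nonneg k
    linarith
  linarith

lemma lo_anti {k k' : ℕ} (h : k ≤ k') : lo k' ≤ lo k := by
  unfold lo
  have h' : (k : ℝ) ≤ k' := by exact_mod_cast h
  have : 1 / (2 * ((k' : ℝ) + 1)) ≤ 1 / (2 * ((k : ℝ) + 1)) :=
    one_div_le_one_div_of_le (by positivity) (by linarith)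
  linarith

lemma hi_mono {k k' : ℕ} (h : k ≤ k') : hi k ≤ hi k' := by
  unfold hi
  have h' : (k : ℝ) ≤ k' := by exact_mod_cast h
  have : 1 / ((k' : ℝ) + 1) ≤ 1 / ((k : ℝ) + 1) :=
    one_div_le_one_div_of_le (by positivity) (by linarith)
  linarith

/-- the band of level `k` at scale `8 ^ b` -/
def Band (k b n : ℕ) : Prop := lo k * 8 ^ b ≤ (n : ℝ) ∧ (n : ℝ) ≤ hi k * 8 ^ b

/-- the band enlarged by half of the transition zone -/
def Half (k b n : ℕ) : Prop := lom k * 8 ^ b < (n : ℝ) ∧ (n : ℝ) < him k * 8 ^ b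

lemma Band.half {k b n : ℕ} (h : Band k b n) : Half k b n := by
  have h8 : (0 : ℝ) < 8 ^ b := by positivity
  have a1 := lo_sub k
  have a2 := hi_sub k
  have p1 : (0 : ℝ) < 1 / (2 * (((k : ℝ) + 1) * ((k : ℝ) + 2))) := by positivity
  have p2 : (0 : ℝ) < 1 / (((k : ℝ) + 1) * ((k : ℝ) + 2)) := by positivity
  refine ⟨lt_of_lt_of_le ?_ h.1, lt_of_le_of_lt h.2 ?_⟩
  · unfold lom
    exact mul_lt_mul_of_pos_right (by linarith) h8
  · unfold him
    exact mul_lt_mul_of_pos_right (by linarith) h8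

lemma Half.band {k b n : ℕ} (h : Half k b n) : Band (k + 1) b n := by
  have h8 : (0 : ℝ) < 8 ^ b := by positivity
  have a1 := lo_sub k
  have a2 := hi_sub k
  have p1 : (0 : ℝ) < 1 / (2 * (((k : ℝ) + 1) * ((k : ℝ) + 2))) := by positivity
  have p2 : (0 : ℝ) < 1 / (((k : ℝ) + 1) * ((k : ℝ) + 2)) := by positivity
  refine ⟨le_of_lt (lt_of_lt_of_le' h.1 ?_), le_of_lt (lt_of_lt_of_le h.2 ?_)⟩
  · unfold lom
    exact mul_le_mul_of_nonneg_right (by linarith) h8.le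
  · unfold him
    exact mul_le_mul_of_nonneg_right (by linarith) h8.le

lemma Band.mono {k k' b n : ℕ} (h : k ≤ k') (hn : Band k b n) : Band k' b n := by
  have h8 : (0 : ℝ) ≤ 8 ^ b := by positivity
  exact ⟨(mul_le_mul_of_nonneg_right (lo_anti h) h8).trans hn.1,
    hn.2.trans (mul_le_mul_of_nonneg_right (hi_mono h) h8)⟩

lemma Band.lt {k b n : ℕ} (hn : Band k b n) : n < 3 * 8 ^ b := by
  have h8 : (0 : ℝ) < 8 ^ b := by positivity
  have h : (n : ℝ) < 3 * 8 ^ b := lt_of_le_of_lt hn.2 (mul_lt_mul_of_pos_right (hi_lt k) h8)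
  exact_mod_cast h

lemma Band.gt {k b n : ℕ} (hn : Band k b n) : 8 ^ b < 2 * n := by
  have h8 : (0 : ℝ) < 8 ^ b := by positivity
  have h : (1 / 2 : ℝ) * 8 ^ b < n := lt_of_lt_of_le (mul_lt_mul_of_pos_right (lo_gt k) h8) hn.1
  have h' : (8 : ℝ) ^ b < 2 * n := by linarith
  exact_mod_cast h'

lemma band_zero {b n : ℕ} (h1 : 8 ^ b ≤ n) (h2 : n ≤ 2 * 8 ^ b) : Band 0 b n := by
  refine ⟨?_, ?_⟩
  · rw [lo_zero, one_mul]
    exact_mod_cast h1
  · rw [hi_zero]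
    exact_mod_cast h2

/-- inner upper width -/
noncomputable def Wa (k b : ℕ) : ℕ := ⌈hi k * 8 ^ b⌉₊
/-- outer upper width -/
noncomputable def Wb (k b : ℕ) : ℕ := ⌊him k * 8 ^ b⌋₊
/-- inner lower width -/
noncomputable def Wc (k b : ℕ) : ℕ := ⌈lom k * 8 ^ b⌉₊
/-- outer lower width -/
noncomputable def Wd (k b : ℕ) : ℕ := ⌊lo k * 8 ^ b⌋₊

/-- the scale is large for the level -/
def Large (k b : ℕ) : Prop := 100 * (k + 2) ^ 2 ≤ 8 ^ b

section widths

variable {k b : ℕ}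

lemma him_pos : 0 < him k := by
  unfold him
  have := two_le_hi k
  have := two_le_hi (k + 1)
  linarith

lemma lom_pos : 0 < lom k := by
  unfold lom
  have := lo_gt k
  have := lo_gt (k + 1)
  linarith

lemma large_real (h : Large k b) : 100 * ((k : ℝ) + 2) ^ 2 ≤ 8 ^ b := by
  unfold Large at h
  exact_mod_cast h

lemma gap_upper (h : Large k b) :
    (8 : ℝ) ^ b / (((k : ℝ) + 1) * ((k : ℝ) + 2)) * (12 / 25) ≤ (Wb k b : ℝ) - Wa k b := by
  have h1 : him k * 8 ^ b - 1 < Wb k b := by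
    unfold Wb
    have := Nat.lt_floor_add_one (him k * 8 ^ b)
    linarith
  have h2 : (Wa k b : ℝ) < hi k * 8 ^ b + 1 := by
    unfold Wa
    exact Nat.ceil_lt_add_one (by have := two_le_hi k; positivity)
  have h3 : him k * 8 ^ b - hi k * 8 ^ b
      = (8 : ℝ) ^ b / (((k : ℝ) + 1) * ((k : ℝ) + 2)) * (1 / 2) := by
    unfold him
    have := hi_sub k
    have e : (hi k + hi (k + 1)) / 2 * 8 ^ b - hi k * 8 ^ b
        = (hi (k + 1) - hi k) * (8 ^ b * (1 / 2)) := by ring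
    rw [e, this]
    ring
  have h4 : (100 : ℝ) ≤ (8 : ℝ) ^ b / (((k : ℝ) + 1) * ((k : ℝ) + 2)) := by
    rw [le_div_iff₀ (by positivity)]
    have := large_real h
    have hk : (0 : ℝ) ≤ k := Nat.cast_nonneg k
    nlinarith
  linarith

lemma gap_lower (h : Large k b) :
    (8 : ℝ) ^ b / (((k : ℝ) + 1) * ((k : ℝ) + 2)) * (23 / 100) ≤ (Wd k b : ℝ) - Wc k b := by
  have h1 : lo k * 8 ^ b - 1 < Wd k b := by
    unfold Wd
    have := Nat.lt_floor_add_one (lo k * 8 ^ b)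
    linarith
  have h2 : (Wc k b : ℝ) < lom k * 8 ^ b + 1 := by
    unfold Wc
    exact Nat.ceil_lt_add_one (by have := lom_pos (k := k); positivity)
  have h3 : lo k * 8 ^ b - lom k * 8 ^ b
      = (8 : ℝ) ^ b / (((k : ℝ) + 1) * ((k : ℝ) + 2)) * (1 / 4) := by
    unfold lom
    have := lo_sub k
    have e : lo k * 8 ^ b - (lo k + lo (k + 1)) / 2 * 8 ^ b
        = (lo k - lo (k + 1)) * (8 ^ b * (1 / 2)) := by ring
    rw [e, this]
    field_simp
    ring
  have h4 : (100 : ℝ) ≤ (8 : ℝ) ^ b / (((k : ℝ) + 1) * ((k : ℝ) + 2)) := by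
    rw [le_div_iff₀ (by positivity)]
    have := large_real h
    have hk : (0 : ℝ) ≤ k := Nat.cast_nonneg k
    nlinarith
  linarith

lemma Wa_lt_Wb (h : Large k b) : Wa k b < Wb k b := by
  have h1 := gap_upper h
  have h2 : (0 : ℝ) < (8 : ℝ) ^ b / (((k : ℝ) + 1) * ((k : ℝ) + 2)) * (12 / 25) := by positivity
  have : (Wa k b : ℝ) < Wb k b := by linarith
  exact_mod_cast this

lemma Wc_lt_Wd (h : Large k b) : Wc k b < Wd k b := by
  have h1 := gap_lower h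
  have h2 : (0 : ℝ) < (8 : ℝ) ^ b / (((k : ℝ) + 1) * ((k : ℝ) + 2)) * (23 / 100) := by positivity
  have : (Wc k b : ℝ) < Wd k b := by linarith
  exact_mod_cast this

lemma Wb_real : (Wb k b : ℝ) ≤ him k * 8 ^ b := by
  unfold Wb
  exact Nat.floor_le (by have := him_pos (k := k); positivity)

lemma Wd_real : (Wd k b : ℝ) ≤ lo k * 8 ^ b := by
  unfold Wd
  exact Nat.floor_le (by have := lo_gt k; positivity)

lemma Wb_le : Wb k b ≤ 3 * 8 ^ b := by
  have h1 := Wb_real (k := k) (b := b)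
  have h2 : him k * 8 ^ b ≤ 3 * 8 ^ b := by
    apply mul_le_mul_of_nonneg_right _ (by positivity)
    unfold him
    have := hi_lt k
    have := hi_lt (k + 1)
    linarith
  have h3 : (Wb k b : ℝ) ≤ 3 * 8 ^ b := h1.trans h2
  exact_mod_cast h3

lemma Wd_le : Wd k b ≤ 8 ^ b := by
  have h1 := Wd_real (k := k) (b := b)
  have h2 : lo k * 8 ^ b ≤ 1 * 8 ^ b :=
    mul_le_mul_of_nonneg_right (lo_le_one k) (by positivity)
  have h3 : (Wd k b : ℝ) ≤ 8 ^ b := by linarith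
  exact_mod_cast h3

lemma two_le_Wa : 2 * 8 ^ b ≤ Wa k b := by
  have h1 : hi k * 8 ^ b ≤ Wa k b := by
    unfold Wa
    exact Nat.le_ceil _
  have h2 : 2 * (8 : ℝ) ^ b ≤ hi k * 8 ^ b :=
    mul_le_mul_of_nonneg_right (two_le_hi k) (by positivity)
  have h3 : 2 * (8 : ℝ) ^ b ≤ Wa k b := h2.trans h1
  exact_mod_cast h3

end widths

/-- multiplier of the block kernel -/
noncomputable def ka (k b n : ℕ) : ℝ := mu (Wa k b) (Wb k b) n - mu (Wc k b) (Wd k b) n

/-- multiplier of the majorant of the block kernel -/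
noncomputable def kq (k b n : ℕ) : ℝ := mq (Wa k b) (Wb k b) n + mq (Wc k b) (Wd k b) n

/-- one-dimensional block kernel -/
noncomputable def vb (k b : ℕ) (t : ZMod L) : ℝ := vp (Wa k b) (Wb k b) t - vp (Wc k b) (Wd k b) t

/-- its majorant -/
noncomputable def vbq (k b : ℕ) (t : ZMod L) : ℝ := vq (Wa k b) (Wb k b) t + vq (Wc k b) (Wd k b) t

section kernel

variable {k b : ℕ}

lemma ka_one (h : Large k b) {n : ℕ} (hn : Band k b n) : ka k b n = 1 := by
  unfold ka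
  rw [mu_one (Wa_lt_Wb h), mu_zero (Wc_lt_Wd h), sub_zero]
  · have : (Wd k b : ℝ) ≤ n := Wd_real.trans hn.1
    exact_mod_cast this
  · have h1 : hi k * 8 ^ b ≤ Wa k b := by
      unfold Wa
      exact Nat.le_ceil _
    have : (n : ℝ) ≤ Wa k b := hn.2.trans h1
    exact_mod_cast this

lemma ka_zero (h : Large k b) {n : ℕ} (hn : ¬ Half k b n) : ka k b n = 0 := by
  unfold Half at hn
  rw [not_and_or, not_lt, not_lt] at hn
  unfold ka
  rcases hn with hn | hn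
  · have h1 : lom k * 8 ^ b ≤ Wc k b := by
      unfold Wc
      exact Nat.le_ceil _
    have h2 : (n : ℝ) ≤ Wc k b := hn.trans h1
    have h3 : n ≤ Wc k b := by exact_mod_cast h2
    have h4 : n ≤ Wa k b := by
      have a1 := (Wc_lt_Wd h)
      have a2 := Wd_le (k := k) (b := b)
      have a3 := two_le_Wa (k := k) (b := b)
      have a4 : 8 ^ b ≤ 2 * 8 ^ b := by omega
      omega
    rw [mu_one (Wa_lt_Wb h) h4, mu_one (Wc_lt_Wd h) h3, sub_self]
  · have h2 : (Wb k b : ℝ) ≤ n := Wb_real.trans hn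
    have h3 : Wb k b ≤ n := by exact_mod_cast h2
    have h4 : Wd k b ≤ n := by
      have a1 := (Wa_lt_Wb h)
      have a2 := Wd_le (k := k) (b := b)
      have a3 := two_le_Wa (k := k) (b := b)
      have a4 : 8 ^ b ≤ 2 * 8 ^ b := by omega
      omega
    rw [mu_zero (Wa_lt_Wb h) h3, mu_zero (Wc_lt_Wd h) h4, sub_self]

lemma ka_le_one (h : Large k b) (n : ℕ) : ka k b n ≤ 1 := by
  unfold ka
  have := mu_le_one (Wa_lt_Wb h) n
  have := mu_nonneg (Wc_lt_Wd h) n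
  linarith

lemma ka_nonneg (h : Large k b) (n : ℕ) : 0 ≤ ka k b n := by
  unfold ka
  by_cases hn : n ≤ Wa k b
  · rw [mu_one (Wa_lt_Wb h) hn]
    have := mu_le_one (Wc_lt_Wd h) n
    linarith
  · have h4 : Wd k b ≤ n := by
      have a2 := Wd_le (k := k) (b := b)
      have a3 := two_le_Wa (k := k) (b := b)
      have a4 : 8 ^ b ≤ 2 * 8 ^ b := by omega
      omega
    rw [mu_zero (Wc_lt_Wd h) h4]
    have := mu_nonneg (Wa_lt_Wb h) n
    linarith

lemma kq_nonneg (h : Large k b) (n : ℕ) : 0 ≤ kq k b n :=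
  add_nonneg (mq_nonneg (Wa_lt_Wb h) n) (mq_nonneg (Wc_lt_Wd h) n)

lemma kq_zero (h : Large k b) {n : ℕ} (hn : 3 * 8 ^ b ≤ n) : kq k b n = 0 := by
  unfold kq
  have a1 := Wb_le (k := k) (b := b)
  have a2 := Wd_le (k := k) (b := b)
  have a4 : 8 ^ b ≤ 3 * 8 ^ b := by omega
  rw [mq_zero (Wa_lt_Wb h) (by omega), mq_zero (Wc_lt_Wd h) (by omega), add_zero]

lemma vbq_nonneg (h : Large k b) (t : ZMod L) : 0 ≤ vbq k b t :=
  add_nonneg (vq_nonneg (Wa_lt_Wb h) t) (vq_nonneg (Wc_lt_Wd h) t)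

lemma abs_vb_le (h : Large k b) (t : ZMod L) : |vb k b t| ≤ vbq k b t := by
  unfold vb vbq
  have h1 := abs_vp_le (Wa_lt_Wb h) t
  have h2 := abs_vp_le (Wc_lt_Wd h) t
  exact (abs_sub _ _).trans (add_le_add h1 h2)

lemma vb_neg (t : ZMod L) : vb k b (-t) = vb k b t := by
  unfold vb
  rw [vp_neg, vp_neg]

lemma vbq_neg (t : ZMod L) : vbq k b (-t) = vbq k b t := by
  unfold vbq
  rw [vq_neg, vq_neg]

lemma vb_eq (h : Large k b) (hL : 6 * 8 ^ b ≤ L) (t : ZMod L) :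
    (vb k b t : ℂ) = ∑ j : ZMod L, (ka k b (fa j) : ℂ) * ch j t := by
  have a1 := Wb_le (k := k) (b := b)
  have a2 := Wd_le (k := k) (b := b)
  unfold vb ka
  push_cast
  rw [vp_eq (Wa_lt_Wb h) (by omega), vp_eq (Wc_lt_Wd h) (by omega), ← Finset.sum_sub_distrib]
  exact Finset.sum_congr rfl (fun j _ => by ring)

lemma vbq_eq (h : Large k b) (hL : 6 * 8 ^ b ≤ L) (t : ZMod L) :
    (vbq k b t : ℂ) = ∑ j : ZMod L, (kq k b (fa j) : ℂ) * ch j t := by
  have a1 := Wb_le (k := k) (b := b)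
  have a2 := Wd_le (k := k) (b := b)
  unfold vbq kq
  push_cast
  rw [vq_eq (Wa_lt_Wb h) (by omega), vq_eq (Wc_lt_Wd h) (by omega), ← Finset.sum_add_distrib]
  exact Finset.sum_congr rfl (fun j _ => by ring)

lemma co_vb (h : Large k b) (hL : 6 * 8 ^ b ≤ L) (j : ZMod L) :
    co (fun t => (vb k b t : ℂ)) j = ka k b (fa j) := co_of_eq _ _ (vb_eq h hL) j

lemma co_vbq (h : Large k b) (hL : 6 * 8 ^ b ≤ L) (j : ZMod L) :
    co (fun t => (vbq k b t : ℂ)) j = kq k b (fa j) := co_of_eq _ _ (vbq_eq h hL) j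

lemma mean_vbq (h : Large k b) (hL : 6 * 8 ^ b ≤ L) :
    (1 / (L : ℝ)) * ∑ t : ZMod L, vbq k b t ≤ 24 * ((k : ℝ) + 2) ^ 2 := by
  have a1 := Wb_le (k := k) (b := b)
  have a2 := Wd_le (k := k) (b := b)
  have b1 := Wa_lt_Wb h
  have b2 := Wc_lt_Wd h
  unfold vbq
  rw [Finset.sum_add_distrib, mul_add, mean_vq b1 (by omega), mean_vq b2 (by omega)]
  have g1 := gap_upper h
  have g2 := gap_lower h
  have r1 : (Wb k b : ℝ) ≤ 3 * 8 ^ b := by exact_mod_cast a1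
  have r1' : (Wa k b : ℝ) ≤ 3 * 8 ^ b := by exact_mod_cast (b1.le.trans a1)
  have r2 : (Wd k b : ℝ) ≤ 8 ^ b := by exact_mod_cast a2
  have r2' : (Wc k b : ℝ) ≤ 8 ^ b := by exact_mod_cast (b2.le.trans a2)
  have hk : (0 : ℝ) ≤ k := Nat.cast_nonneg k
  have h8 : (0 : ℝ) < 8 ^ b := by positivity
  have hq : 0 < (8 : ℝ) ^ b / (((k : ℝ) + 1) * ((k : ℝ) + 2)) := by positivity
  have e1 : ((Wb k b : ℝ) + Wa k b) / ((Wb k b : ℝ) - Wa k b)
      ≤ (25 / 2) * (((k : ℝ) + 1) * ((k : ℝ) + 2)) := by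
    rw [div_le_iff₀ (by linarith)]
    have : (25 / 2) * (((k : ℝ) + 1) * ((k : ℝ) + 2))
        * ((8 : ℝ) ^ b / (((k : ℝ) + 1) * ((k : ℝ) + 2)) * (12 / 25)) = 6 * 8 ^ b := by
      field_simp
      ring
    have h2 : (25 / 2) * (((k : ℝ) + 1) * ((k : ℝ) + 2))
        * ((8 : ℝ) ^ b / (((k : ℝ) + 1) * ((k : ℝ) + 2)) * (12 / 25))
        ≤ (25 / 2) * (((k : ℝ) + 1) * ((k : ℝ) + 2)) * ((Wb k b : ℝ) - Wa k b) :=
      mul_le_mul_of_nonneg_left g1 (by positivity)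
    linarith
  have e2 : ((Wd k b : ℝ) + Wc k b) / ((Wd k b : ℝ) - Wc k b)
      ≤ (200 / 23) * (((k : ℝ) + 1) * ((k : ℝ) + 2)) := by
    rw [div_le_iff₀ (by linarith)]
    have : (200 / 23) * (((k : ℝ) + 1) * ((k : ℝ) + 2))
        * ((8 : ℝ) ^ b / (((k : ℝ) + 1) * ((k : ℝ) + 2)) * (23 / 100)) = 2 * 8 ^ b := by
      field_simp
      ring
    have h2 : (200 / 23) * (((k : ℝ) + 1) * ((k : ℝ) + 2))
        * ((8 : ℝ) ^ b / (((k : ℝ) + 1) * ((k : ℝ) + 2)) * (23 / 100))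
        ≤ (200 / 23) * (((k : ℝ) + 1) * ((k : ℝ) + 2)) * ((Wd k b : ℝ) - Wc k b) :=
      mul_le_mul_of_nonneg_left g2 (by positivity)
    linarith
  nlinarith

end kernel

/-- two-dimensional block kernel -/
noncomputable def vs (k b c : ℕ) (x : GG L) : ℝ := vb k b x.1 * vb k c x.2

/-- its majorant -/
noncomputable def vsq (k b c : ℕ) (x : GG L) : ℝ := vbq k b x.1 * vbq k c x.2

/-- norm constant of the block kernels -/
noncomputable def CV (k : ℕ) : ℝ := (24 * ((k : ℝ) + 2) ^ 2) ^ 2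

lemma CV_pos (k : ℕ) : 0 < CV k := by unfold CV; positivity

lemma one_le_CV (k : ℕ) : 1 ≤ CV k := by
  unfold CV
  have hk : (0 : ℝ) ≤ k := Nat.cast_nonneg k
  have h1 : (1 : ℝ) ≤ 24 * ((k : ℝ) + 2) ^ 2 := by nlinarith
  nlinarith

section two

variable {k b c : ℕ}

lemma abs_vs_le (hb : Large k b) (hc : Large k c) (x : GG L) : |vs k b c x| ≤ vsq k b c x := by
  unfold vs vsq
  rw [abs_mul]
  exact mul_le_mul (abs_vb_le hb _) (abs_vb_le hc _) (abs_nonneg _) (vbq_nonneg hb _)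

lemma vsq_nonneg (hb : Large k b) (hc : Large k c) (x : GG L) : 0 ≤ vsq k b c x :=
  mul_nonneg (vbq_nonneg hb _) (vbq_nonneg hc _)

lemma vs_neg (x : GG L) : vs k b c (-x) = vs k b c x := by
  unfold vs
  rw [Prod.fst_neg, Prod.snd_neg, vb_neg, vb_neg]

lemma vsq_neg (x : GG L) : vsq k b c (-x) = vsq k b c x := by
  unfold vsq
  rw [Prod.fst_neg, Prod.snd_neg, vbq_neg, vbq_neg]

lemma co2_vs (hb : Large k b) (hc : Large k c) (hLb : 6 * 8 ^ b ≤ L) (hLc : 6 * 8 ^ c ≤ L)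
    (j : GG L) : co2 (fun x => (vs k b c x : ℂ)) j
      = (ka k b (fa j.1) : ℂ) * (ka k c (fa j.2) : ℂ) := by
  have h : (fun x : GG L => (vs k b c x : ℂ)) = fun x => (vb k b x.1 : ℂ) * (vb k c x.2 : ℂ) := by
    funext x
    unfold vs
    push_cast
    rfl
  rw [h, co2_prod (fun t => (vb k b t : ℂ)) (fun t => (vb k c t : ℂ)), co_vb hb hLb, co_vb hc hLc]

lemma co2_vsq (hb : Large k b) (hc : Large k c) (hLb : 6 * 8 ^ b ≤ L) (hLc : 6 * 8 ^ c ≤ L)
    (j : GG L) : co2 (fun x => (vsq k b c x : ℂ)) j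
      = (kq k b (fa j.1) : ℂ) * (kq k c (fa j.2) : ℂ) := by
  have h : (fun x : GG L => (vsq k b c x : ℂ))
      = fun x => (vbq k b x.1 : ℂ) * (vbq k c x.2 : ℂ) := by
    funext x
    unfold vsq
    push_cast
    rfl
  rw [h, co2_prod (fun t => (vbq k b t : ℂ)) (fun t => (vbq k c t : ℂ)), co_vbq hb hLb,
    co_vbq hc hLc]

lemma mean_vsq (hb : Large k b) (hc : Large k c) (hLb : 6 * 8 ^ b ≤ L) (hLc : 6 * 8 ^ c ≤ L) :
    ER (fun x : GG L => vsq k b c x) ≤ CV k := by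
  unfold vsq CV
  rw [ER_prod (fun t => vbq k b t) (fun t => vbq k c t), sq]
  refine mul_le_mul (mean_vbq hb hLb) (mean_vbq hc hLc) ?_ (by positivity)
  exact mul_nonneg (by positivity) (Finset.sum_nonneg (fun t _ => vbq_nonneg hc t))

end two

end H95.CP
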