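import Pool.Agent.H95.CP.FinA

set_option autoImplicit false

/-! Numbers for the inactive column of the final test. -/

namespace H95.CP

open Finset ComplexConjugate Pool.Agent.H98.CP

lemma geom_Icc_le (q : ℝ) (h0 : 0 ≤ q) (h1 : q < 1) (J m : ℕ) :
    ∑ d ∈ Icc J m, q ^ d ≤ q ^ J * (1 / (1 - q)) := by
  have h2 : ∑ d ∈ Icc J m, q ^ d ≤ ∑ i ∈ range (m + 1), q ^ J * q ^ i := by
    have h3 : ∀ i ∈ range (m + 1), 0 ≤ q ^ J * q ^ i := fun i _ => by positivity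
    have h4 : Icc J m = (Finset.range (m + 1 - J)).image (fun i => J + i) := by
      ext d
      rw [mem_Icc, mem_image]
      constructor
      · intro h
        exact ⟨d - J, by rw [mem_range]; omega, by omega⟩
      · rintro ⟨i, hi, rfl⟩
        rw [mem_range] at hi
        omega
    rw [h4, Finset.sum_image (fun a _ b _ h => by simpa using h)]
    have h5 : ∑ i ∈ range (m + 1 - J), q ^ (J + i) = ∑ i ∈ range (m + 1 - J), q ^ J * q ^ i :=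
      Finset.sum_congr rfl (fun i _ => by rw [pow_add])
    rw [h5]
    exact Finset.sum_le_sum_of_subset_of_nonneg
      (Finset.range_subset_range.2 (Nat.sub_le _ _)) (fun i hi _ => h3 i hi)
  refine h2.trans ?_
  rw [← Finset.mul_sum]
  refine mul_le_mul_of_nonneg_left ?_ (by positivity)
  rw [geom_sum_eq h1.ne]
  have h5 : (q ^ (m + 1) - 1) / (q - 1) = (1 - q ^ (m + 1)) / (1 - q) := by
    rw [← neg_sub 1 q, ← neg_sub 1 (q ^ (m + 1)), neg_div_neg_eq]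
  rw [h5]
  have h6 : 0 < 1 - q := by linarith
  have h7 : 0 ≤ q ^ (m + 1) := by positivity
  exact div_le_div_of_nonneg_right (by linarith) h6.le

lemma geom_range_le (q : ℝ) (h0 : 0 ≤ q) (h1 : q < 1) (n : ℕ) :
    ∑ d ∈ range n, q ^ d ≤ 1 / (1 - q) := by
  rw [geom_sum_eq h1.ne]
  have h5 : (q ^ n - 1) / (q - 1) = (1 - q ^ n) / (1 - q) := by
    rw [← neg_sub 1 q, ← neg_sub 1 (q ^ n), neg_div_neg_eq]
  rw [h5]
  have h6 : 0 < 1 - q := by linarith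
  have h7 : 0 ≤ q ^ n := by positivity
  exact div_le_div_of_nonneg_right (by linarith) h6.le

/-- numbers for the polar part -/
lemma num_h1 (M d n : ℕ) (hd : d ≤ M) (hn : (8 : ℝ) ^ M * (3 / 4) ^ d ≤ n) :
    4 * (1 / 2 ^ 20 * 2 ^ d / 8 ^ 0) ^ 2 * 8 ^ (M - d) / (n : ℝ)
      ≤ ((1 / 2 ^ 19 : ℝ) * (5 / 6) ^ d) ^ 2 := by
  have h8 : (8 : ℝ) ^ (M - d) = 8 ^ M / 8 ^ d := by
    rw [eq_div_iff (by positivity), ← pow_add, Nat.sub_add_cancel hd]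
  have hpos : (0 : ℝ) < (8 : ℝ) ^ M * (3 / 4) ^ d := by positivity
  have hn0 : (0 : ℝ) < n := lt_of_lt_of_le hpos hn
  rw [h8, div_le_iff₀ hn0]
  have e1 : 4 * (1 / 2 ^ 20 * 2 ^ d / 8 ^ 0) ^ 2 * ((8 : ℝ) ^ M / 8 ^ d)
      = (1 / 2 ^ 38) * ((4 : ℝ) ^ d * (1 / 8) ^ d) * 8 ^ M := by
    have h4 : (4 : ℝ) ^ d = (2 ^ d) ^ 2 := by
      rw [← pow_mul, mul_comm, pow_mul]
      norm_num
    rw [h4, one_div_pow]
    ring
  have e2 : ((1 / 2 ^ 19 : ℝ) * (5 / 6) ^ d) ^ 2 * ((8 : ℝ) ^ M * (3 / 4) ^ d)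
      = (1 / 2 ^ 38) * ((25 / 36 : ℝ) ^ d * (3 / 4) ^ d) * 8 ^ M := by
    have h4 : (25 / 36 : ℝ) ^ d = ((5 / 6) ^ d) ^ 2 := by
      rw [← pow_mul, mul_comm, pow_mul]
      norm_num
    rw [h4]
    ring
  refine le_trans ?_ (mul_le_mul_of_nonneg_left hn (by positivity))
  rw [e1, e2, ← mul_pow, ← mul_pow]
  have h5 : ((4 : ℝ) * (1 / 8)) ^ d ≤ (25 / 36 * (3 / 4)) ^ d :=
    pow_le_pow_left₀ (by norm_num) (by norm_num) d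
  gcongr

/-- numbers for the far part -/
lemma num_h2 (M J j0 s n : ℕ) (hM : 4 ≤ M) (hn : (8 : ℝ) ^ M * (3 / 4) ^ J * (1 / 4) ^ s ≤ n) :
    4 * (8 ^ (M - 4) * Real.sqrt (TH (j0 + s) / 8 ^ M)) ^ 2
        * (64 * CV 0 * 8 ^ 0 / 2 ^ (max J (60 * s))) ^ 2 / (n : ℝ)
      ≤ ((8 : ℝ) ^ (8 * j0) * CV 0 * (5 / 6) ^ J * (1 / 32) ^ s) ^ 2 := by
  have hpos : (0 : ℝ) < (8 : ℝ) ^ M * (3 / 4) ^ J * (1 / 4) ^ s := by positivity
  have hn0 : (0 : ℝ) < n := lt_of_lt_of_le hpos hn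
  have hTH : 0 ≤ TH (j0 + s) / 8 ^ M := by unfold TH; positivity
  have h8 : (8 : ℝ) ^ (M - 4) = 8 ^ M / 8 ^ 4 := by
    rw [eq_div_iff (by positivity), ← pow_add, Nat.sub_add_cancel hM]
  have hmax : (1 : ℝ) / (2 ^ (max J (60 * s))) ^ 2 ≤ (1 / 2) ^ J * (1 / 2) ^ (60 * s) := by
    rw [← pow_mul, ← pow_add, one_div_pow]
    refine one_div_le_one_div_of_le (by positivity) ?_
    exact pow_le_pow_right₀ (by norm_num) (by omega)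
  rw [div_le_iff₀ hn0, mul_pow, Real.sq_sqrt hTH, h8]
  have e1 : 4 * (((8 : ℝ) ^ M / 8 ^ 4) ^ 2 * (TH (j0 + s) / 8 ^ M))
        * (64 * CV 0 * 8 ^ 0 / 2 ^ (max J (60 * s))) ^ 2
      = (1 / 1024) * CV 0 ^ 2 * 8 ^ M * TH (j0 + s) * (1 / (2 ^ (max J (60 * s))) ^ 2) := by
    have h8M : (8 : ℝ) ^ M ≠ 0 := by positivity
    rw [div_pow _ _ 2, div_pow _ _ 2]
    field_simp
    ring
  rw [e1]
  have e2 : TH (j0 + s) = ((8 : ℝ) ^ (8 * j0)) ^ 2 * (2 ^ 48) ^ s := by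
    unfold TH
    rw [← pow_mul, ← pow_mul, mul_add, pow_add]
    congr 1
    · congr 1
      ring
    · have : (8 : ℝ) = 2 ^ 3 := by norm_num
      rw [this, ← pow_mul]
      congr 1
      ring
  have hcv := CV_pos 0
  have e3 : (0 : ℝ) ≤ (1 / 1024) * CV 0 ^ 2 * 8 ^ M * TH (j0 + s) := by
    unfold TH
    positivity
  refine (mul_le_mul_of_nonneg_left hmax e3).trans ?_
  refine le_trans ?_ (mul_le_mul_of_nonneg_left hn (by positivity))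
  have e4 : (1 / 1024) * CV 0 ^ 2 * 8 ^ M * TH (j0 + s) * ((1 / 2) ^ J * (1 / 2) ^ (60 * s))
      = (CV 0 ^ 2 * 8 ^ M * ((8 : ℝ) ^ (8 * j0)) ^ 2)
        * ((1 / 1024) * ((1 / 2) ^ J * ((2 ^ 48) * (1 / 2) ^ 60) ^ s)) := by
    rw [e2, mul_pow, ← pow_mul (1 / 2 : ℝ) 60 s]
    ring
  have e5 : ((8 : ℝ) ^ (8 * j0) * CV 0 * (5 / 6) ^ J * (1 / 32) ^ s) ^ 2
        * ((8 : ℝ) ^ M * (3 / 4) ^ J * (1 / 4) ^ s)
      = (CV 0 ^ 2 * 8 ^ M * ((8 : ℝ) ^ (8 * j0)) ^ 2)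
        * (((5 / 6) ^ 2 * (3 / 4)) ^ J * ((1 / 32) ^ 2 * (1 / 4)) ^ s) := by
    rw [mul_pow ((5 / 6 : ℝ) ^ 2), mul_pow ((1 / 32 : ℝ) ^ 2), ← pow_mul (5 / 6 : ℝ) 2 J,
      ← pow_mul (1 / 32 : ℝ) 2 s, mul_comm 2 J, mul_comm 2 s, pow_mul, pow_mul]
    ring
  rw [e4, e5]
  refine mul_le_mul_of_nonneg_left ?_ (by positivity)
  have h6 : ((1 : ℝ) / 2) ^ J ≤ ((5 / 6) ^ 2 * (3 / 4)) ^ J :=
    pow_le_pow_left₀ (by norm_num) (by norm_num) J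
  have h7 : ((2 : ℝ) ^ 48 * (1 / 2) ^ 60) ^ s ≤ ((1 / 32) ^ 2 * (1 / 4)) ^ s :=
    pow_le_pow_left₀ (by norm_num) (by norm_num) s
  calc (1 / 1024 : ℝ) * ((1 / 2) ^ J * ((2 ^ 48) * (1 / 2) ^ 60) ^ s)
      ≤ 1 * ((1 / 2) ^ J * ((2 ^ 48) * (1 / 2) ^ 60) ^ s) := by
        refine mul_le_mul_of_nonneg_right (by norm_num) (by positivity)
    _ ≤ _ := by
        rw [one_mul]
        exact mul_le_mul h6 h7 (by positivity) (by positivity)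

/-- the sum of the errors is small -/
lemma num_sum (j0 : ℕ) : ∃ J1 : ℕ, ∀ J, J1 ≤ J → ∀ m n : ℕ,
    ∑ d ∈ Icc J m, ((1 / 2 ^ 19 : ℝ) * (5 / 6) ^ d)
      + ∑ s ∈ range n, ((8 : ℝ) ^ (8 * j0) * CV 0 * (5 / 6) ^ J * (1 / 32) ^ s) ≤ 2 / 2 ^ 20 := by
  have hcv := CV_pos 0
  obtain ⟨J1, hJ1⟩ := exists_pow_lt_of_lt_one (x := 1 / (2 ^ 21 * (6 + 2 * ((8 : ℝ) ^ (8 * j0) * CV 0))))
    (y := (5 / 6 : ℝ)) (by positivity) (by norm_num)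
  refine ⟨J1, fun J hJ m n => ?_⟩
  have h1 : (5 / 6 : ℝ) ^ J ≤ 1 / (2 ^ 21 * (6 + 2 * ((8 : ℝ) ^ (8 * j0) * CV 0))) :=
    (pow_le_pow_of_le_one (by norm_num) (by norm_num) hJ).trans hJ1.le
  rw [← Finset.mul_sum, ← Finset.mul_sum]
  have h2 := geom_Icc_le (5 / 6) (by norm_num) (by norm_num) J m
  have h3 := geom_range_le (1 / 32) (by norm_num) (by norm_num) n
  have h4 : (1 / 2 ^ 19 : ℝ) * ∑ d ∈ Icc J m, (5 / 6 : ℝ) ^ d ≤ 1 * (6 * (5 / 6) ^ J) := by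
    refine mul_le_mul (by norm_num) (h2.trans (le_of_eq ?_)) (by positivity) (by norm_num)
    norm_num
    ring
  have h5 : (8 : ℝ) ^ (8 * j0) * CV 0 * (5 / 6) ^ J * ∑ s ∈ range n, (1 / 32 : ℝ) ^ s
      ≤ (8 : ℝ) ^ (8 * j0) * CV 0 * (5 / 6) ^ J * 2 := by
    refine mul_le_mul_of_nonneg_left (h3.trans (by norm_num)) (by positivity)
  rw [le_div_iff₀ (by positivity)] at h1
  have h6 : 6 * (5 / 6 : ℝ) ^ J + (8 : ℝ) ^ (8 * j0) * CV 0 * (5 / 6) ^ J * 2 ≤ 1 / 2 ^ 21 := by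
    rw [le_div_iff₀ (by positivity)]
    linarith
  have h7 : (1 : ℝ) / 2 ^ 21 ≤ 2 / 2 ^ 20 := by norm_num
  linarith

end H95.CP
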