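import Pool.Agent.H95.CP.Ker

/-!
Fourier analysis on the group `ZMod L × ZMod L`.
-/

namespace H95.CP

open Finset ComplexConjugate

/-- the group -/
abbrev GG (L : ℕ) := ZMod L × ZMod L

variable {L : ℕ} [NeZero L]

/-- mean value of a complex function -/
noncomputable def E (f : GG L → ℂ) : ℂ := (1 / (L : ℂ) ^ 2) * ∑ x, f x

/-- mean value of a real function -/
noncomputable def ER (f : GG L → ℝ) : ℝ := (1 / (L : ℝ) ^ 2) * ∑ x, f x

/-- characters -/
noncomputable def ch2 (k x : GG L) : ℂ := ch k.1 x.1 * ch k.2 x.2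

/-- Fourier coefficients -/
noncomputable def co2 (f : GG L → ℂ) (k : GG L) : ℂ := E (fun x => f x * conj (ch2 k x))

/-- convolution -/
noncomputable def conv (f g : GG L → ℂ) (x : GG L) : ℂ := E (fun s => f s * g (x - s))

/-- convolution in the second variable -/
noncomputable def yconv (K : ZMod L → ℂ) (f : GG L → ℂ) (x : GG L) : ℂ :=
  (1 / (L : ℂ)) * ∑ s : ZMod L, K s * f (x.1, x.2 - s)

lemma Lpos : (0 : ℝ) < L := by
  have := NeZero.pos L
  exact_mod_cast this

lemma E_ofReal (f : GG L → ℝ) : E (fun x => (f x : ℂ)) = (ER f : ℂ) := by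
  unfold E ER
  push_cast
  rfl

lemma E_add (f g : GG L → ℂ) : E (fun x => f x + g x) = E f + E g := by
  unfold E
  rw [Finset.sum_add_distrib, mul_add]

lemma E_sub (f g : GG L → ℂ) : E (fun x => f x - g x) = E f - E g := by
  unfold E
  rw [Finset.sum_sub_distrib, mul_sub]

lemma E_mul_left (a : ℂ) (f : GG L → ℂ) : E (fun x => a * f x) = a * E f := by
  unfold E
  rw [← Finset.mul_sum]
  ring

lemma E_mul_right (a : ℂ) (f : GG L → ℂ) : E (fun x => f x * a) = E f * a := by
  unfold E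
  rw [← Finset.sum_mul]
  ring

lemma E_sum {ι : Type*} (s : Finset ι) (f : ι → GG L → ℂ) :
    E (fun x => ∑ i ∈ s, f i x) = ∑ i ∈ s, E (f i) := by
  unfold E
  rw [Finset.sum_comm, Finset.mul_sum]

lemma E_comm (f : GG L → GG L → ℂ) :
    E (fun x => E (fun y => f x y)) = E (fun y => E (fun x => f x y)) := by
  unfold E
  rw [← Finset.mul_sum, ← Finset.mul_sum, Finset.sum_comm]

lemma E_const (a : ℂ) : E (fun _ : GG L => a) = a := by
  unfold E
  rw [Finset.sum_const, Finset.card_univ, Fintype.card_prod, ZMod.card, nsmul_eq_mul]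
  have := L_ne (L := L)
  push_cast
  field_simp

lemma E_conj (f : GG L → ℂ) : conj (E f) = E (fun x => conj (f x)) := by
  unfold E
  rw [map_mul, map_sum]
  congr 1
  simp

lemma E_shift (f : GG L → ℂ) (y : GG L) : E (fun x => f (x - y)) = E f := by
  unfold E
  congr 1
  exact Fintype.sum_equiv (Equiv.subRight y) _ _ (fun _ => rfl)

lemma E_refl (f : GG L → ℂ) (y : GG L) : E (fun x => f (y - x)) = E f := by
  unfold E
  congr 1
  exact Fintype.sum_equiv (Equiv.subLeft y) _ _ (fun _ => rfl)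

lemma norm_E_le (f : GG L → ℂ) : ‖E f‖ ≤ ER (fun x => ‖f x‖) := by
  unfold E ER
  rw [norm_mul]
  have h : ‖(1 / (L : ℂ) ^ 2)‖ = 1 / (L : ℝ) ^ 2 := by
    rw [norm_div, norm_one, norm_pow, Complex.norm_natCast]
  rw [h]
  exact mul_le_mul_of_nonneg_left (norm_sum_le _ _) (by positivity)

lemma ER_mono {f g : GG L → ℝ} (h : ∀ x, f x ≤ g x) : ER f ≤ ER g := by
  unfold ER
  exact mul_le_mul_of_nonneg_left (Finset.sum_le_sum (fun x _ => h x)) (by positivity)

lemma ER_nonneg {f : GG L → ℝ} (h : ∀ x, 0 ≤ f x) : 0 ≤ ER f := by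
  unfold ER
  exact mul_nonneg (by positivity) (Finset.sum_nonneg (fun x _ => h x))

lemma ER_add (f g : GG L → ℝ) : ER (fun x => f x + g x) = ER f + ER g := by
  unfold ER
  rw [Finset.sum_add_distrib, mul_add]

lemma ER_sub (f g : GG L → ℝ) : ER (fun x => f x - g x) = ER f - ER g := by
  unfold ER
  rw [Finset.sum_sub_distrib, mul_sub]

lemma ER_mul_left (a : ℝ) (f : GG L → ℝ) : ER (fun x => a * f x) = a * ER f := by
  unfold ER
  rw [← Finset.mul_sum]
  ring

lemma ER_mul_right (a : ℝ) (f : GG L → ℝ) : ER (fun x => f x * a) = ER f * a := by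
  unfold ER
  rw [← Finset.sum_mul]
  ring

lemma ER_const (a : ℝ) : ER (fun _ : GG L => a) = a := by
  unfold ER
  rw [Finset.sum_const, Finset.card_univ, Fintype.card_prod, ZMod.card, nsmul_eq_mul]
  have := Lpos (L := L)
  push_cast
  field_simp

lemma ER_shift (f : GG L → ℝ) (y : GG L) : ER (fun x => f (x - y)) = ER f := by
  unfold ER
  congr 1
  exact Fintype.sum_equiv (Equiv.subRight y) _ _ (fun _ => rfl)

lemma ER_refl (f : GG L → ℝ) (y : GG L) : ER (fun x => f (y - x)) = ER f := by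
  unfold ER
  congr 1
  exact Fintype.sum_equiv (Equiv.subLeft y) _ _ (fun _ => rfl)

lemma ch2_zero_left (x : GG L) : ch2 0 x = 1 := by
  unfold ch2
  rw [Prod.fst_zero, Prod.snd_zero, ch_zero_left, ch_zero_left, one_mul]

lemma ch2_zero_right (k : GG L) : ch2 k 0 = 1 := by
  unfold ch2
  rw [Prod.fst_zero, Prod.snd_zero, ch_zero_right, ch_zero_right, one_mul]

lemma ch2_comm (k x : GG L) : ch2 k x = ch2 x k := by
  unfold ch2
  rw [ch_comm k.1, ch_comm k.2]

lemma ch2_add_left (k l x : GG L) : ch2 (k + l) x = ch2 k x * ch2 l x := by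
  unfold ch2
  rw [Prod.fst_add, Prod.snd_add, ch_add_left, ch_add_left]
  ring

lemma ch2_add_right (k x y : GG L) : ch2 k (x + y) = ch2 k x * ch2 k y := by
  unfold ch2
  rw [Prod.fst_add, Prod.snd_add, ch_add_right, ch_add_right]
  ring

lemma ch2_neg_left (k x : GG L) : ch2 (-k) x = conj (ch2 k x) := by
  unfold ch2
  rw [Prod.fst_neg, Prod.snd_neg, ch_neg_left, ch_neg_left, map_mul]

lemma ch2_neg_right (k x : GG L) : ch2 k (-x) = conj (ch2 k x) := by
  rw [ch2_comm, ch2_neg_left, ch2_comm]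

lemma ch2_sub_left (k l x : GG L) : ch2 (k - l) x = ch2 k x * conj (ch2 l x) := by
  rw [sub_eq_add_neg, ch2_add_left, ch2_neg_left]

lemma ch2_sub_right (k x y : GG L) : ch2 k (x - y) = ch2 k x * conj (ch2 k y) := by
  rw [sub_eq_add_neg, ch2_add_right, ch2_neg_right]

lemma ch2_norm (k x : GG L) : ‖ch2 k x‖ = 1 := by
  unfold ch2
  rw [norm_mul, ch_norm, ch_norm, one_mul]

lemma ch2_conj_mul (k x : GG L) : conj (ch2 k x) * ch2 k x = 1 := by
  rw [Complex.conj_mul', ch2_norm]
  norm_num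

lemma ch2_mul_conj (k x : GG L) : ch2 k x * conj (ch2 k x) = 1 := by
  rw [mul_comm, ch2_conj_mul]

lemma sum_ch2 (k : GG L) : ∑ x : GG L, ch2 k x = if k = 0 then (L : ℂ) ^ 2 else 0 := by
  unfold ch2
  rw [Fintype.sum_prod_type]
  simp only
  rw [← Finset.sum_mul_sum, sum_ch, sum_ch]
  by_cases h1 : k.1 = 0
  · by_cases h2 : k.2 = 0
    · have : k = 0 := Prod.ext h1 h2
      rw [if_pos h1, if_pos h2, if_pos this]
      ring
    · have : k ≠ 0 := fun h => h2 (by rw [h]; rfl)
      rw [if_neg h2, if_neg this, mul_zero]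
  · have : k ≠ 0 := fun h => h1 (by rw [h]; rfl)
    rw [if_neg h1, if_neg this, zero_mul]

lemma E_ch2 (k : GG L) : E (fun x => ch2 k x) = if k = 0 then 1 else 0 := by
  unfold E
  rw [sum_ch2]
  have := L_ne (L := L)
  split_ifs
  · field_simp
  · simp

lemma co2_ch2 (l k : GG L) : co2 (fun x => ch2 l x) k = if l = k then 1 else 0 := by
  unfold co2
  simp only [← ch2_sub_left]
  rw [E_ch2]
  by_cases h : l = k
  · simp [h]
  · have h2 : l - k ≠ 0 := fun h3 => h (sub_eq_zero.mp h3)
    simp [h, h2]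

lemma inversion2 (f : GG L → ℂ) (x : GG L) : f x = ∑ k : GG L, co2 f k * ch2 k x := by
  unfold co2 E
  have h1 : ∀ k : GG L, (1 / (L : ℂ) ^ 2) * (∑ s : GG L, f s * conj (ch2 k s)) * ch2 k x
      = (1 / (L : ℂ) ^ 2) * ∑ s : GG L, f s * ch2 (x - s) k := by
    intro k
    rw [mul_assoc, Finset.sum_mul]
    congr 1
    refine Finset.sum_congr rfl (fun s _ => ?_)
    rw [ch2_comm (x - s), ch2_sub_right]
    ring
  simp only [h1]
  rw [← Finset.mul_sum, Finset.sum_comm]
  have h2 : ∀ s : GG L, ∑ k : GG L, f s * ch2 (x - s) k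
      = if s = x then f s * (L : ℂ) ^ 2 else 0 := by
    intro s
    rw [← Finset.mul_sum, sum_ch2]
    by_cases h : s = x
    · simp [h]
    · have : x - s ≠ 0 := fun h' => h (sub_eq_zero.mp h').symm
      simp [h, this]
  simp only [h2]
  rw [Finset.sum_ite_eq' Finset.univ x]
  simp only [Finset.mem_univ, if_true]
  have := L_ne (L := L)
  field_simp

lemma co2_add (f g : GG L → ℂ) (k : GG L) :
    co2 (fun x => f x + g x) k = co2 f k + co2 g k := by
  unfold co2
  rw [← E_add]
  congr 1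
  ext x
  ring

lemma co2_sub (f g : GG L → ℂ) (k : GG L) :
    co2 (fun x => f x - g x) k = co2 f k - co2 g k := by
  unfold co2
  rw [← E_sub]
  congr 1
  ext x
  ring

lemma co2_smul (a : ℂ) (f : GG L → ℂ) (k : GG L) :
    co2 (fun x => a * f x) k = a * co2 f k := by
  unfold co2
  rw [← E_mul_left]
  congr 1
  ext x
  ring

lemma co2_sum {ι : Type*} (s : Finset ι) (f : ι → GG L → ℂ) (k : GG L) :
    co2 (fun x => ∑ i ∈ s, f i x) k = ∑ i ∈ s, co2 (f i) k := by
  unfold co2
  rw [← E_sum]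
  congr 1
  ext x
  rw [Finset.sum_mul]

lemma co2_of_eq (f c : GG L → ℂ) (h : ∀ x, f x = ∑ l : GG L, c l * ch2 l x) (k : GG L) :
    co2 f k = c k := by
  have h1 : f = fun x => ∑ l : GG L, c l * ch2 l x := funext h
  rw [h1, co2_sum]
  have h2 : ∀ l : GG L, co2 (fun x => c l * ch2 l x) k = if l = k then c l else 0 := by
    intro l
    rw [co2_smul, co2_ch2]
    split_ifs <;> simp
  simp only [h2]
  rw [Finset.sum_ite_eq' Finset.univ k]
  simp

lemma ext_co2 {f g : GG L → ℂ} (h : ∀ k, co2 f k = co2 g k) : f = g := by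
  funext x
  rw [inversion2 f x, inversion2 g x]
  exact Finset.sum_congr rfl (fun k _ => by rw [h k])

lemma co2_zero (f : GG L → ℂ) : co2 f 0 = E f := by
  unfold co2
  simp only [ch2_zero_left, map_one, mul_one]

lemma E_mul_ch2 (f : GG L → ℂ) (k : GG L) : E (fun x => f x * ch2 k x) = co2 f (-k) := by
  unfold co2
  congr 1
  ext x
  rw [ch2_neg_left, Complex.conj_conj]

lemma co2_neg_conj (f : GG L → ℂ) (k : GG L) :
    co2 (fun x => conj (f x)) k = conj (co2 f (-k)) := by
  unfold co2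
  rw [E_conj]
  congr 1
  ext x
  rw [map_mul, ch2_neg_left, Complex.conj_conj]

lemma co2_real (f : GG L → ℝ) (k : GG L) :
    co2 (fun x => (f x : ℂ)) (-k) = conj (co2 (fun x => (f x : ℂ)) k) := by
  have := co2_neg_conj (fun x => (f x : ℂ)) (-k)
  simp only [Complex.conj_ofReal, neg_neg] at this
  exact this

lemma co2_shift (f : GG L → ℂ) (y k : GG L) :
    co2 (fun x => f (x - y)) k = conj (ch2 k y) * co2 f k := by
  unfold co2
  rw [← E_mul_left, ← E_shift (fun x => conj (ch2 k y) * (f x * conj (ch2 k x))) y]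
  congr 1
  ext x
  rw [ch2_sub_right, map_mul, Complex.conj_conj]
  have := ch2_conj_mul k y
  linear_combination (-(f (x - y) * conj (ch2 k x))) * this

lemma co2_mod (f : GG L → ℂ) (l k : GG L) :
    co2 (fun x => f x * ch2 l x) k = co2 f (k - l) := by
  unfold co2
  congr 1
  ext x
  rw [ch2_sub_left, map_mul, Complex.conj_conj]
  ring

/-- pairing of two functions -/
lemma pairing (f g : GG L → ℂ) :
    E (fun x => f x * conj (g x)) = ∑ k : GG L, co2 f k * conj (co2 g k) := by
  have h1 : ∀ x, f x * conj (g x) = ∑ k : GG L, f x * conj (ch2 k x) * conj (co2 g k) := by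
    intro x
    conv_lhs => rw [inversion2 g x]
    rw [map_sum, Finset.mul_sum]
    refine Finset.sum_congr rfl (fun k _ => ?_)
    rw [map_mul]
    ring
  simp only [h1]
  rw [E_sum]
  refine Finset.sum_congr rfl (fun k _ => ?_)
  rw [E_mul_right]
  rfl

lemma pairing' (f g : GG L → ℂ) :
    E (fun x => f x * g x) = ∑ k : GG L, co2 f k * co2 g (-k) := by
  have := pairing f (fun x => conj (g x))
  simp only [Complex.conj_conj, co2_neg_conj] at this
  exact this

lemma parseval (f : GG L → ℂ) : ER (fun x => ‖f x‖ ^ 2) = ∑ k : GG L, ‖co2 f k‖ ^ 2 := by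
  have h := pairing f f
  apply Complex.ofReal_injective
  rw [← E_ofReal]
  push_cast
  simp only [← Complex.mul_conj']
  exact h

/-- coefficients of a product -/
lemma co2_mul (f g : GG L → ℂ) (k : GG L) :
    co2 (fun x => f x * g x) k = ∑ l : GG L, co2 f l * co2 g (k - l) := by
  have h1 : ∀ x, f x * g x * conj (ch2 k x)
      = ∑ l : GG L, co2 f l * (g x * conj (ch2 (k - l) x)) := by
    intro x
    conv_lhs => rw [inversion2 f x]
    rw [Finset.sum_mul, Finset.sum_mul]
    refine Finset.sum_congr rfl (fun l _ => ?_)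
    rw [ch2_sub_left, map_mul, Complex.conj_conj]
    ring
  unfold co2 at *
  simp only [h1]
  rw [E_sum]
  refine Finset.sum_congr rfl (fun l _ => ?_)
  rw [E_mul_left]

lemma co2_conv (f g : GG L → ℂ) (k : GG L) : co2 (conv f g) k = co2 f k * co2 g k := by
  unfold conv
  have h1 : co2 (fun x => E (fun s => f s * g (x - s))) k
      = E (fun s => f s * co2 (fun x => g (x - s)) k) := by
    unfold co2
    have h2 : ∀ x, E (fun s => f s * g (x - s)) * conj (ch2 k x)
        = E (fun s => f s * (g (x - s) * conj (ch2 k x))) := by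
      intro x
      rw [← E_mul_right]
      congr 1
      ext s
      ring
    simp only [h2]
    rw [E_comm]
    congr 1
    ext s
    rw [E_mul_left]
  rw [h1]
  simp only [co2_shift]
  have h3 : ∀ s, f s * (conj (ch2 k s) * co2 g k) = f s * conj (ch2 k s) * co2 g k := by
    intro s
    ring
  simp only [h3]
  rw [E_mul_right]
  rfl

lemma conv_comm (f g : GG L → ℂ) : conv f g = conv g f := by
  apply ext_co2
  intro k
  rw [co2_conv, co2_conv, mul_comm]

lemma norm_conv_le (f g : GG L → ℂ) (B : ℝ) (hB : ∀ x, ‖g x‖ ≤ B) (x : GG L) :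
    ‖conv f g x‖ ≤ ER (fun s => ‖f s‖) * B := by
  unfold conv
  refine (norm_E_le _).trans ?_
  rw [← ER_mul_right]
  refine ER_mono (fun s => ?_)
  rw [norm_mul]
  exact mul_le_mul_of_nonneg_left (hB _) (norm_nonneg _)

/-- adjoint of a convolution -/
lemma E_mul_conv (K f g : GG L → ℂ) :
    E (fun x => f x * conv K g x) = E (fun x => conv (fun s => K (-s)) f x * g x) := by
  unfold conv
  have h1 : ∀ x, f x * E (fun s => K s * g (x - s)) = E (fun s => f x * (K (x - s) * g s)) := by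
    intro x
    rw [← E_mul_left, ← E_refl (fun s => f x * (K s * g (x - s))) x]
    congr 1
    ext s
    rw [sub_sub_cancel]
  have h2 : ∀ x, E (fun s => K (-s) * f (x - s)) * g x
      = E (fun s => f s * (K (s - x) * g x)) := by
    intro x
    rw [← E_mul_right, ← E_refl (fun s => K (-s) * f (x - s) * g x) x]
    congr 1
    ext s
    rw [sub_sub_cancel, neg_sub]
    ring
  simp only [h1, h2]
  rw [E_comm]

lemma yconv_eq (K : ZMod L → ℂ) (f : GG L → ℂ) (x : GG L) :
    yconv K f x = ∑ k : GG L, co K k.2 * co2 f k * ch2 k x := by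
  unfold yconv
  have h1 : ∀ s : ZMod L, K s * f (x.1, x.2 - s)
      = ∑ k : GG L, co2 f k * ch2 k x * (K s * conj (ch k.2 s)) := by
    intro s
    conv_lhs => rw [inversion2 f (x.1, x.2 - s)]
    rw [Finset.mul_sum]
    refine Finset.sum_congr rfl (fun k _ => ?_)
    unfold ch2
    rw [ch_sub_right]
    ring
  simp only [h1]
  rw [Finset.sum_comm, Finset.mul_sum]
  refine Finset.sum_congr rfl (fun k _ => ?_)
  rw [← Finset.mul_sum]
  unfold co
  ring

lemma co2_yconv (K : ZMod L → ℂ) (f : GG L → ℂ) (k : GG L) :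
    co2 (yconv K f) k = co K k.2 * co2 f k :=
  co2_of_eq _ _ (yconv_eq K f) k

lemma norm_yconv_le (K : ZMod L → ℂ) (f : GG L → ℂ) (B : ℝ) (hB : ∀ x, ‖f x‖ ≤ B) (x : GG L) :
    ‖yconv K f x‖ ≤ ((1 / (L : ℝ)) * ∑ s : ZMod L, ‖K s‖) * B := by
  unfold yconv
  rw [norm_mul]
  have h : ‖(1 / (L : ℂ))‖ = 1 / (L : ℝ) := by
    rw [norm_div, norm_one, Complex.norm_natCast]
  rw [h, mul_assoc, Finset.sum_mul]
  refine mul_le_mul_of_nonneg_left ?_ (by positivity)
  refine (norm_sum_le _ _).trans (Finset.sum_le_sum (fun s _ => ?_))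
  rw [norm_mul]
  exact mul_le_mul_of_nonneg_left (hB _) (norm_nonneg _)

lemma yconv_comm (K K' : ZMod L → ℂ) (f : GG L → ℂ) :
    yconv K (yconv K' f) = yconv K' (yconv K f) := by
  apply ext_co2
  intro k
  rw [co2_yconv, co2_yconv, co2_yconv, co2_yconv]
  ring

lemma yconv_conv (K : ZMod L → ℂ) (f g : GG L → ℂ) :
    yconv K (conv f g) = conv f (yconv K g) := by
  apply ext_co2
  intro k
  rw [co2_yconv, co2_conv, co2_conv, co2_yconv]
  ring

/-- product kernels -/
lemma co2_prod (A B : ZMod L → ℂ) (k : GG L) :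
    co2 (fun x => A x.1 * B x.2) k = co A k.1 * co B k.2 := by
  unfold co2 E co ch2
  rw [Fintype.sum_prod_type]
  have h1 : ∀ s t : ZMod L, A s * B t * conj (ch k.1 s * ch k.2 t)
      = (A s * conj (ch k.1 s)) * (B t * conj (ch k.2 t)) := by
    intro s t
    rw [map_mul]
    ring
  simp only [h1]
  rw [← Finset.sum_mul_sum]
  have := L_ne (L := L)
  field_simp

lemma ER_prod (A B : ZMod L → ℝ) :
    ER (fun x : GG L => A x.1 * B x.2)
      = ((1 / (L : ℝ)) * ∑ s, A s) * ((1 / (L : ℝ)) * ∑ s, B s) := by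
  unfold ER
  rw [Fintype.sum_prod_type]
  simp only
  rw [← Finset.sum_mul_sum]
  have := Lpos (L := L)
  field_simp

end H95.CP
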