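import Mathlib

/-!
Characters, Fourier coefficients and de la Vallee Poussin kernels on the cyclic group of order `L`.
-/

namespace H95.CP

open Finset ComplexConjugate

variable {L : ℕ} [NeZero L]

/-- the character of frequency `k` at the point `t` -/
noncomputable def ch (k t : ZMod L) : ℂ := ZMod.stdAddChar (k * t)

lemma ch_add_left (k l t : ZMod L) : ch (k + l) t = ch k t * ch l t := by
  unfold ch
  rw [add_mul, AddChar.map_add_eq_mul]

lemma ch_add_right (k s t : ZMod L) : ch k (s + t) = ch k s * ch k t := by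
  unfold ch
  rw [mul_add, AddChar.map_add_eq_mul]

lemma ch_comm (k t : ZMod L) : ch k t = ch t k := by
  unfold ch
  rw [mul_comm]

lemma ch_zero_left (t : ZMod L) : ch 0 t = 1 := by
  unfold ch
  rw [zero_mul, AddChar.map_zero_eq_one]

lemma ch_zero_right (k : ZMod L) : ch k 0 = 1 := by
  unfold ch
  rw [mul_zero, AddChar.map_zero_eq_one]

lemma ch_norm (k t : ZMod L) : ‖ch k t‖ = 1 := by
  unfold ch
  exact AddChar.norm_apply _ _

lemma ch_neg_left (k t : ZMod L) : ch (-k) t = conj (ch k t) := by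
  unfold ch
  rw [neg_mul, AddChar.map_neg_eq_conj]

lemma ch_neg_right (k t : ZMod L) : ch k (-t) = conj (ch k t) := by
  rw [ch_comm, ch_neg_left, ch_comm]

lemma ch_sub_left (k l t : ZMod L) : ch (k - l) t = ch k t * conj (ch l t) := by
  rw [sub_eq_add_neg, ch_add_left, ch_neg_left]

lemma ch_sub_right (k s t : ZMod L) : ch k (s - t) = ch k s * conj (ch k t) := by
  rw [sub_eq_add_neg, ch_add_right, ch_neg_right]

lemma sum_ch (k : ZMod L) : ∑ t : ZMod L, ch k t = if k = 0 then (L : ℂ) else 0 := by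
  unfold ch
  split_ifs with h
  · simp only [h, zero_mul, AddChar.map_zero_eq_one, sum_const, card_univ, ZMod.card,
      nsmul_eq_mul, mul_one]
  · have := AddChar.sum_eq_zero_of_ne_one (ZMod.isPrimitive_stdAddChar L h)
    simpa [AddChar.mulShift_apply] using this

lemma sum_ch' (t : ZMod L) : ∑ k : ZMod L, ch k t = if t = 0 then (L : ℂ) else 0 := by
  rw [← sum_ch t]
  exact Finset.sum_congr rfl (fun k _ => ch_comm _ _)

/-- Fourier coefficient -/
noncomputable def co (f : ZMod L → ℂ) (k : ZMod L) : ℂ :=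
  (1 / (L : ℂ)) * ∑ t : ZMod L, f t * conj (ch k t)

lemma L_ne : (L : ℂ) ≠ 0 := by exact_mod_cast NeZero.ne L

lemma inversion (f : ZMod L → ℂ) (t : ZMod L) : f t = ∑ k : ZMod L, co f k * ch k t := by
  unfold co
  have h1 : ∀ k : ZMod L, (1 / (L : ℂ)) * (∑ s : ZMod L, f s * conj (ch k s)) * ch k t
      = (1 / (L : ℂ)) * ∑ s : ZMod L, f s * ch k (t - s) := by
    intro k
    rw [mul_assoc, Finset.sum_mul]
    congr 1
    refine Finset.sum_congr rfl (fun s _ => ?_)
    rw [ch_sub_right]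
    ring
  simp only [h1]
  rw [← Finset.mul_sum, Finset.sum_comm]
  have h2 : ∀ s : ZMod L, ∑ k : ZMod L, f s * ch k (t - s) = if s = t then f s * L else 0 := by
    intro s
    rw [← Finset.mul_sum, sum_ch']
    by_cases h : s = t
    · simp [h]
    · have : t - s ≠ 0 := fun h' => h (sub_eq_zero.mp h').symm
      simp [h, this]
  simp only [h2]
  rw [Finset.sum_ite_eq' Finset.univ t]
  simp only [Finset.mem_univ, if_true]
  have := L_ne (L := L)
  field_simp

lemma co_ch (l k : ZMod L) : co (fun t => ch l t) k = if l = k then 1 else 0 := by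
  unfold co
  have h : ∀ t : ZMod L, ch l t * conj (ch k t) = ch (l - k) t := fun t => (ch_sub_left l k t).symm
  simp only [h]
  rw [sum_ch]
  have := L_ne (L := L)
  by_cases h' : l = k
  · simp [h', this]
  · have h2 : l - k ≠ 0 := fun h3 => h' (sub_eq_zero.mp h3)
    simp [h', h2]

lemma co_sum {ι : Type*} (s : Finset ι) (f : ι → ZMod L → ℂ) (k : ZMod L) :
    co (fun t => ∑ i ∈ s, f i t) k = ∑ i ∈ s, co (f i) k := by
  unfold co
  simp only [Finset.sum_mul]
  rw [Finset.sum_comm, Finset.mul_sum]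

lemma co_smul (a : ℂ) (f : ZMod L → ℂ) (k : ZMod L) :
    co (fun t => a * f t) k = a * co f k := by
  unfold co
  simp only [mul_assoc]
  rw [← Finset.mul_sum]
  ring

lemma co_of_eq (f c : ZMod L → ℂ) (h : ∀ t, f t = ∑ l : ZMod L, c l * ch l t) (k : ZMod L) :
    co f k = c k := by
  have h1 : f = fun t => ∑ l : ZMod L, c l * ch l t := funext h
  rw [h1, co_sum]
  have h2 : ∀ l : ZMod L, co (fun t => c l * ch l t) k = if l = k then c l else 0 := by
    intro l
    rw [co_smul, co_ch]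
    split_ifs <;> simp
  simp only [h2]
  rw [Finset.sum_ite_eq' Finset.univ k]
  simp

/-- absolute value of a frequency -/
def fa (k : ZMod L) : ℕ := k.valMinAbs.natAbs

/-- the square of the Dirichlet sum -/
noncomputable def dk (W : ℕ) (t : ZMod L) : ℝ := ‖∑ j ∈ range W, ch (j : ZMod L) t‖ ^ 2

lemma dk_nonneg (W : ℕ) (t : ZMod L) : 0 ≤ dk W t := by unfold dk; positivity

/-- pairs of given difference -/
lemma card_diff (W : ℕ) (d : ℤ) :
    (#((range W ×ˢ range W).filter (fun p : ℕ × ℕ => (p.1 : ℤ) - p.2 = d)) : ℝ)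
      = max ((W : ℝ) - d.natAbs) 0 := by
  have h1 : (range W ×ˢ range W).filter (fun p : ℕ × ℕ => (p.1 : ℤ) - p.2 = d)
      = (range (W - d.natAbs)).image (fun n => (n + d.toNat, n + (-d).toNat)) := by
    ext ⟨i, j⟩
    simp only [mem_filter, mem_product, mem_range, mem_image, Prod.mk.injEq]
    constructor
    · rintro ⟨⟨hi, hj⟩, hd⟩
      refine ⟨min i j, ?_, ?_, ?_⟩ <;> omega
    · rintro ⟨n, hn, rfl, rfl⟩
      omega
  rw [h1, card_image_of_injective, card_range]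
  · by_cases h : d.natAbs ≤ W
    · rw [Nat.cast_sub h, max_eq_left]
      have : (d.natAbs : ℝ) ≤ W := by exact_mod_cast h
      linarith
    · have h2 : W - d.natAbs = 0 := by omega
      rw [h2, max_eq_right]
      · simp
      · have : (W : ℝ) ≤ d.natAbs := by exact_mod_cast (not_le.mp h).le
        linarith
  · intro a b hab
    simp only [Prod.mk.injEq] at hab
    omega

lemma dk_eq (W : ℕ) (hW : 2 * W ≤ L) (t : ZMod L) :
    (dk W t : ℂ) = ∑ k : ZMod L, ((max ((W : ℝ) - fa k) 0 : ℝ) : ℂ) * ch k t := by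
  unfold dk
  push_cast
  rw [← Complex.mul_conj', map_sum, Finset.sum_mul_sum]
  have h1 : ∀ i ∈ range W, ∀ j ∈ range W,
      ch (i : ZMod L) t * conj (ch (j : ZMod L) t) = ch ((i : ZMod L) - (j : ZMod L)) t :=
    fun i _ j _ => (ch_sub_left _ _ _).symm
  rw [Finset.sum_congr rfl (fun i hi => Finset.sum_congr rfl (h1 i hi)), ← Finset.sum_product']
  rw [← Finset.sum_fiberwise (range W ×ˢ range W) (fun p : ℕ × ℕ => (p.1 : ZMod L) - (p.2 : ZMod L))]
  refine Finset.sum_congr rfl (fun k _ => ?_)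
  have h2 : ((range W ×ˢ range W).filter
      (fun p : ℕ × ℕ => (p.1 : ZMod L) - (p.2 : ZMod L) = k))
      = (range W ×ˢ range W).filter (fun p : ℕ × ℕ => (p.1 : ℤ) - p.2 = k.valMinAbs) := by
    refine Finset.filter_congr (fun p hp => ?_)
    rw [mem_product, mem_range, mem_range] at hp
    rw [eq_comm (b := k.valMinAbs), ZMod.valMinAbs_spec]
    constructor
    · intro h
      refine ⟨?_, ?_⟩
      · rw [← h]
        push_cast
        rfl
      · rw [Set.mem_Ioc]
        omega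
    · rintro ⟨h, _⟩
      rw [h]
      push_cast
      rfl
  have h3 : ∀ p ∈ (range W ×ˢ range W).filter
      (fun p : ℕ × ℕ => (p.1 : ZMod L) - (p.2 : ZMod L) = k),
      ch ((p.1 : ZMod L) - (p.2 : ZMod L)) t = ch k t := by
    intro p hp
    rw [mem_filter] at hp
    rw [hp.2]
  rw [Finset.sum_congr rfl h3, Finset.sum_const, nsmul_eq_mul, h2]
  congr 1
  have := card_diff W k.valMinAbs
  unfold fa
  rw [← this]
  simp

/-- multiplier of the kernel -/
noncomputable def mu (W1 W2 n : ℕ) : ℝ :=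
  (max ((W2 : ℝ) - n) 0 - max ((W1 : ℝ) - n) 0) / ((W2 : ℝ) - W1)

/-- multiplier of the majorant -/
noncomputable def mq (W1 W2 n : ℕ) : ℝ :=
  (max ((W2 : ℝ) - n) 0 + max ((W1 : ℝ) - n) 0) / ((W2 : ℝ) - W1)

lemma mu_nonneg {W1 W2 : ℕ} (h : W1 < W2) (n : ℕ) : 0 ≤ mu W1 W2 n := by
  have h' : (W1 : ℝ) < W2 := by exact_mod_cast h
  unfold mu
  refine div_nonneg ?_ (by linarith)
  have : max ((W1 : ℝ) - n) 0 ≤ max ((W2 : ℝ) - n) 0 := max_le_max (by linarith) le_rfl
  linarith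

lemma mu_le_one {W1 W2 : ℕ} (h : W1 < W2) (n : ℕ) : mu W1 W2 n ≤ 1 := by
  have h' : (W1 : ℝ) < W2 := by exact_mod_cast h
  unfold mu
  rw [div_le_one (by linarith)]
  rcases le_total (W1 : ℝ) n with h1 | h1
  · rw [max_eq_right (by linarith : (W1 : ℝ) - n ≤ 0), sub_zero]
    exact max_le (by linarith) (by linarith)
  · rw [max_eq_left (by linarith : 0 ≤ (W1 : ℝ) - n), max_eq_left (by linarith)]
    linarith

lemma mu_one {W1 W2 : ℕ} (h : W1 < W2) {n : ℕ} (hn : n ≤ W1) : mu W1 W2 n = 1 := by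
  have h' : (W1 : ℝ) < W2 := by exact_mod_cast h
  have hn' : (n : ℝ) ≤ W1 := by exact_mod_cast hn
  unfold mu
  rw [max_eq_left (by linarith : 0 ≤ (W1 : ℝ) - n), max_eq_left (by linarith)]
  rw [div_eq_one_iff_eq (by linarith)]
  ring

lemma mu_zero {W1 W2 : ℕ} (h : W1 < W2) {n : ℕ} (hn : W2 ≤ n) : mu W1 W2 n = 0 := by
  have h' : (W1 : ℝ) < W2 := by exact_mod_cast h
  have hn' : (W2 : ℝ) ≤ n := by exact_mod_cast hn
  unfold mu
  rw [max_eq_right (by linarith : (W1 : ℝ) - n ≤ 0), max_eq_right (by linarith)]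
  simp

lemma mq_nonneg {W1 W2 : ℕ} (h : W1 < W2) (n : ℕ) : 0 ≤ mq W1 W2 n := by
  have h' : (W1 : ℝ) < W2 := by exact_mod_cast h
  unfold mq
  exact div_nonneg (by positivity) (by linarith)

lemma mq_zero {W1 W2 : ℕ} (h : W1 < W2) {n : ℕ} (hn : W2 ≤ n) : mq W1 W2 n = 0 := by
  have h' : (W1 : ℝ) < W2 := by exact_mod_cast h
  have hn' : (W2 : ℝ) ≤ n := by exact_mod_cast hn
  unfold mq
  rw [max_eq_right (by linarith : (W1 : ℝ) - n ≤ 0), max_eq_right (by linarith)]
  simp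

lemma mq_at_zero {W1 W2 : ℕ} : mq W1 W2 0 = ((W2 : ℝ) + W1) / ((W2 : ℝ) - W1) := by
  unfold mq
  simp

lemma mq_le {W1 W2 : ℕ} (h : W1 < W2) (n : ℕ) :
    mq W1 W2 n ≤ ((W2 : ℝ) + W1) / ((W2 : ℝ) - W1) := by
  have h' : (W1 : ℝ) < W2 := by exact_mod_cast h
  unfold mq
  refine div_le_div_of_nonneg_right ?_ (by linarith)
  have hn : (0 : ℝ) ≤ n := Nat.cast_nonneg n
  have h1 : (0 : ℝ) ≤ W1 := Nat.cast_nonneg _
  have a1 : max ((W2 : ℝ) - n) 0 ≤ W2 := max_le (by linarith) (by linarith)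
  have a2 : max ((W1 : ℝ) - n) 0 ≤ W1 := max_le (by linarith) (by linarith)
  linarith

/-- the kernel -/
noncomputable def vp (W1 W2 : ℕ) (t : ZMod L) : ℝ := (dk W2 t - dk W1 t) / ((W2 : ℝ) - W1)

/-- its positive majorant -/
noncomputable def vq (W1 W2 : ℕ) (t : ZMod L) : ℝ := (dk W2 t + dk W1 t) / ((W2 : ℝ) - W1)

lemma vq_nonneg {W1 W2 : ℕ} (h : W1 < W2) (t : ZMod L) : 0 ≤ vq W1 W2 t := by
  have h' : (W1 : ℝ) < W2 := by exact_mod_cast h
  unfold vq
  exact div_nonneg (add_nonneg (dk_nonneg _ _) (dk_nonneg _ _)) (by linarith)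

lemma abs_vp_le {W1 W2 : ℕ} (h : W1 < W2) (t : ZMod L) : |vp W1 W2 t| ≤ vq W1 W2 t := by
  have h' : (W1 : ℝ) < W2 := by exact_mod_cast h
  unfold vp vq
  rw [abs_div, abs_of_pos (by linarith : (0 : ℝ) < (W2 : ℝ) - W1)]
  refine div_le_div_of_nonneg_right ?_ (by linarith)
  have a1 := dk_nonneg W1 t
  have a2 := dk_nonneg W2 t
  rw [abs_le]
  constructor <;> linarith

lemma vp_eq {W1 W2 : ℕ} (h : W1 < W2) (hL : 2 * W2 ≤ L) (t : ZMod L) :
    (vp W1 W2 t : ℂ) = ∑ k : ZMod L, (mu W1 W2 (fa k) : ℂ) * ch k t := by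
  unfold vp mu
  push_cast
  have e1 := dk_eq W1 (by omega) t
  have e2 := dk_eq W2 hL t
  rw [e1, e2, ← Finset.sum_sub_distrib, Finset.sum_div]
  refine Finset.sum_congr rfl (fun k _ => ?_)
  ring

lemma vq_eq {W1 W2 : ℕ} (h : W1 < W2) (hL : 2 * W2 ≤ L) (t : ZMod L) :
    (vq W1 W2 t : ℂ) = ∑ k : ZMod L, (mq W1 W2 (fa k) : ℂ) * ch k t := by
  unfold vq mq
  push_cast
  have e1 := dk_eq W1 (by omega) t
  have e2 := dk_eq W2 hL t
  rw [e1, e2, ← Finset.sum_add_distrib, Finset.sum_div]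
  refine Finset.sum_congr rfl (fun k _ => ?_)
  ring

lemma co_vp {W1 W2 : ℕ} (h : W1 < W2) (hL : 2 * W2 ≤ L) (k : ZMod L) :
    co (fun t => (vp W1 W2 t : ℂ)) k = mu W1 W2 (fa k) :=
  co_of_eq _ _ (vp_eq h hL) k

lemma co_vq {W1 W2 : ℕ} (h : W1 < W2) (hL : 2 * W2 ≤ L) (k : ZMod L) :
    co (fun t => (vq W1 W2 t : ℂ)) k = mq W1 W2 (fa k) :=
  co_of_eq _ _ (vq_eq h hL) k

lemma mean_vq {W1 W2 : ℕ} (h : W1 < W2) (hL : 2 * W2 ≤ L) :
    (1 / (L : ℝ)) * ∑ t : ZMod L, vq W1 W2 t = ((W2 : ℝ) + W1) / ((W2 : ℝ) - W1) := by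
  have h1 := co_vq (L := L) h hL 0
  unfold co at h1
  have h2 : fa (0 : ZMod L) = 0 := by
    unfold fa
    simp
  rw [h2, mq_at_zero] at h1
  simp only [ch_zero_left, map_one, mul_one] at h1
  apply Complex.ofReal_injective
  rw [← h1]
  push_cast
  rfl

end H95.CP
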